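import Pool.Agent.Helper21.BisBasic

set_option linter.unusedSectionVars false

namespace Pool.Agent.Helper21.Bis

open Finset

variable {V : Type*} [DecidableEq V] {A : V → V → ℤ}

/-- Sign vectors from the degree-sorted pairing. -/
lemma sorted_signs (hA : IsAdj A) (w : V → ℤ) (n : ℕ) : ∀ (t : Finset V), #t = n →
    ∀ M : ℤ, 0 ≤ M → (∀ v ∈ t, 0 ≤ w v ∧ w v ≤ M) →
    ∃ x : V → ℤ, IsSign x ∧ |∑ v ∈ t, x v| ≤ 1 ∧ F A x t ≤ 0 ∧ |∑ v ∈ t, w v * x v| ≤ M := by
  induction n using Nat.strong_induction_on with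
  | _ n ih =>
    intro t ht M hM hw
    rcases t.eq_empty_or_nonempty with rfl | hne
    · exact ⟨fun _ => 1, fun _ => Or.inl rfl, by simp, by simp [F_empty], by simpa using hM⟩
    obtain ⟨p, hp, hpmax⟩ := exists_max_image t w hne
    rcases (t.erase p).eq_empty_or_nonempty with he | hne2
    · have htp : t = {p} := by
        rw [← insert_erase hp, he]; simp
      refine ⟨fun _ => 1, fun _ => Or.inl rfl, by rw [htp]; simp, ?_, ?_⟩
      · rw [htp]; simp [F, hA.diag]
      · rw [htp]
        simp only [sum_singleton, mul_one]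
        rw [abs_of_nonneg (hw p hp).1]
        exact (hw p hp).2
    · obtain ⟨q, hq, hqmax⟩ := exists_max_image (t.erase p) w hne2
      have hqt : q ∈ t := mem_of_mem_erase hq
      have hqp : q ≠ p := ne_of_mem_erase hq
      set t' := (t.erase p).erase q with ht'
      have hpt' : p ∉ t' := by simp [ht']
      have hqt' : q ∉ t' := by simp [ht']
      have htt : t = insert p (insert q t') := by
        rw [ht', insert_erase hq, insert_erase hp]
      have hcard : #t' < n := by
        rw [← ht, htt, card_insert_of_notMem (by simp [hqp.symm, hpt']),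
          card_insert_of_notMem hqt']
        omega
      obtain ⟨x, hx, hb, hF, hL⟩ := ih _ hcard t' rfl (w q) (hw q hqt).1 (fun v hv => by
        have hv1 : v ∈ t.erase p := mem_of_mem_erase hv
        exact ⟨(hw v (mem_of_mem_erase hv1)).1, hqmax v hv1⟩)
      obtain ⟨y, hy, hyx, hyq, hyF⟩ := step hA.symm hx hqp.symm hpt' hqt'
      have hpi : p ∉ insert q t' := by simp [hqp.symm, hpt']
      have s1 : ∑ v ∈ t', y v = ∑ v ∈ t', x v := sum_congr rfl hyx
      have s2 : ∑ v ∈ t', w v * y v = ∑ v ∈ t', w v * x v :=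
        sum_congr rfl fun v hv => by rw [hyx v hv]
      refine ⟨y, hy, ?_, ?_, ?_⟩
      · rw [htt, sum_insert hpi, sum_insert hqt', hyq, s1]
        simpa using hb
      · rw [htt]
        refine hyF.trans ?_
        rw [hA.diag, hA.diag]
        have := hA.nonneg p q
        linarith
      · rw [htt, sum_insert hpi, sum_insert hqt', hyq, s2]
        have hpq : w q ≤ w p := hpmax q hqt
        have hpM := (hw p hp).2
        rw [abs_le] at hL ⊢
        rcases hy p with h | h <;> rw [h] <;> constructor <;> linarith [hL.1, hL.2]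

/-- Sign vectors from an arbitrary pairing. -/
lemma arb_signs (hA : IsAdj A) (w g : V → ℤ) (K D : ℤ) (hK : 0 ≤ K) (hD : 0 ≤ D) (n : ℕ) :
    ∀ (t : Finset V), #t = n →
    (∀ v ∈ t, 0 ≤ w v ∧ w v ≤ D ∧ 0 ≤ g v ∧ w v ≤ g v + 3) →
    (∀ p ∈ t, ∀ q ∈ t, |w p - w q| ≤ g p + g q) →
    ∃ x : V → ℤ, IsSign x ∧ |∑ v ∈ t, x v| ≤ 1 ∧
      F (fun a b => K * A a b + w a * w b) x t ≤ D * (∑ v ∈ t, g v + 3) := by
  have hB : ∀ a b, (fun a b => K * A a b + w a * w b) a b =
      (fun a b => K * A a b + w a * w b) b a := by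
    intro a b
    simp only
    rw [hA.symm a b]; ring
  induction n using Nat.strong_induction_on with
  | _ n ih =>
    intro t ht hw hg
    rcases t.eq_empty_or_nonempty with rfl | hne
    · exact ⟨fun _ => 1, fun _ => Or.inl rfl, by simp, by simp [F_empty]; linarith⟩
    obtain ⟨p, hp⟩ := hne
    rcases (t.erase p).eq_empty_or_nonempty with he | hne2
    · have htp : t = {p} := by
        rw [← insert_erase hp, he]; simp
      obtain ⟨h0, h1, h2, h3⟩ := hw p hp
      refine ⟨fun _ => 1, fun _ => Or.inl rfl, by rw [htp]; simp, ?_⟩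
      rw [htp]
      simp only [F, sum_singleton, hA.diag, mul_zero, zero_add, mul_one]
      nlinarith
    · obtain ⟨q, hq⟩ := hne2
      have hqt : q ∈ t := mem_of_mem_erase hq
      have hqp : q ≠ p := ne_of_mem_erase hq
      set t' := (t.erase p).erase q with ht'
      have hpt' : p ∉ t' := by simp [ht']
      have hqt' : q ∉ t' := by simp [ht']
      have htt : t = insert p (insert q t') := by
        rw [ht', insert_erase hq, insert_erase hp]
      have hsub : ∀ v ∈ t', v ∈ t := fun v hv => mem_of_mem_erase (mem_of_mem_erase hv)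
      have hcard : #t' < n := by
        rw [← ht, htt, card_insert_of_notMem (by simp [hqp.symm, hpt']),
          card_insert_of_notMem hqt']
        omega
      obtain ⟨x, hx, hb, hF⟩ := ih _ hcard t' rfl (fun v hv => hw v (hsub v hv))
        (fun a ha b hb => hg a (hsub a ha) b (hsub b hb))
      obtain ⟨y, hy, hyx, hyq, hyF⟩ := step hB hx hqp.symm hpt' hqt'
      have hpi : p ∉ insert q t' := by simp [hqp.symm, hpt']
      have s1 : ∑ v ∈ t', y v = ∑ v ∈ t', x v := sum_congr rfl hyx
      refine ⟨y, hy, ?_, ?_⟩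
      · rw [htt, sum_insert hpi, sum_insert hqt', hyq, s1]
        simpa using hb
      · rw [htt, sum_insert hpi, sum_insert hqt']
        refine hyF.trans ?_
        simp only [hA.diag, mul_zero, zero_add]
        have h1 := hA.nonneg p q
        have h2 : 0 ≤ K * A p q := mul_nonneg hK h1
        have h3 := hg p hp q hqt
        obtain ⟨a0, a1, a2, a3⟩ := hw p hp
        obtain ⟨b0, b1, b2, b3⟩ := hw q hqt
        have h4 : |w p - w q| ≤ D := by
          rw [abs_le]; constructor <;> linarith
        have h5 : (w p - w q) * (w p - w q) ≤ D * (g p + g q) := by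
          rw [← abs_mul_abs_self (w p - w q)]
          exact mul_le_mul h4 h3 (abs_nonneg _) hD
        nlinarith

/-- Sign vectors from a maximal matching. -/
lemma matching_signs (hA : IsAdj A) (w g : V → ℤ) (K D : ℤ) (hK : 0 ≤ K) (hD : 0 ≤ D) (n : ℕ) :
    ∀ (t : Finset V), #t = n →
    (∀ v ∈ t, 0 ≤ w v ∧ w v ≤ D ∧ 0 ≤ g v ∧ w v ≤ g v + 3) →
    (∀ p ∈ t, ∀ q ∈ t, |w p - w q| ≤ g p + g q) →
    ∃ (R I : Finset V) (k : ℕ), Disjoint R I ∧ R ∪ I = t ∧ #R = 2 * k ∧ (2 * k : ℤ) ≤ E2 A R ∧
      (∀ a ∈ I, ∀ b ∈ I, A a b = 0) ∧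
    ∃ x : V → ℤ, IsSign x ∧ |∑ v ∈ t, x v| ≤ 1 ∧
      F (fun a b => K * A a b + w a * w b) x t ≤ D * (∑ v ∈ t, g v + 3) - 2 * K * k := by
  have hB : ∀ a b, (fun a b => K * A a b + w a * w b) a b =
      (fun a b => K * A a b + w a * w b) b a := by
    intro a b
    simp only
    rw [hA.symm a b]; ring
  induction n using Nat.strong_induction_on with
  | _ n ih =>
    intro t ht hw hg
    by_cases hadj : ∃ p ∈ t, ∃ q ∈ t, A p q = 1
    · obtain ⟨p, hp, q, hqt, hpq⟩ := hadj
      have hqp : q ≠ p := by
        rintro rfl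
        rw [hA.diag] at hpq; norm_num at hpq
      have hq : q ∈ t.erase p := mem_erase.mpr ⟨hqp, hqt⟩
      set t' := (t.erase p).erase q with ht'
      have hpt' : p ∉ t' := by simp [ht']
      have hqt' : q ∉ t' := by simp [ht']
      have htt : t = insert p (insert q t') := by
        rw [ht', insert_erase hq, insert_erase hp]
      have hsub : ∀ v ∈ t', v ∈ t := fun v hv => mem_of_mem_erase (mem_of_mem_erase hv)
      have hcard : #t' < n := by
        rw [← ht, htt, card_insert_of_notMem (by simp [hqp.symm, hpt']),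
          card_insert_of_notMem hqt']
        omega
      obtain ⟨R, I, k, hRI, hRIt, hRk, hRE, hI, x, hx, hb, hF⟩ :=
        ih _ hcard t' rfl (fun v hv => hw v (hsub v hv))
          (fun a ha b hb => hg a (hsub a ha) b (hsub b hb))
      obtain ⟨y, hy, hyx, hyq, hyF⟩ := step hB hx hqp.symm hpt' hqt'
      have hpi : p ∉ insert q t' := by simp [hqp.symm, hpt']
      have s1 : ∑ v ∈ t', y v = ∑ v ∈ t', x v := sum_congr rfl hyx
      have hpR : p ∉ R := fun h => hpt' (hRIt ▸ mem_union_left _ h)
      have hqR : q ∉ R := fun h => hqt' (hRIt ▸ mem_union_left _ h)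
      have hpI : p ∉ I := fun h => hpt' (hRIt ▸ mem_union_right _ h)
      have hqI : q ∉ I := fun h => hqt' (hRIt ▸ mem_union_right _ h)
      have hpqR : p ∉ insert q R := by simp [hqp.symm, hpR]
      refine ⟨insert p (insert q R), I, k + 1, ?_, ?_, ?_, ?_, hI, y, hy, ?_, ?_⟩
      · rw [disjoint_insert_left, disjoint_insert_left]
        exact ⟨hpI, hqI, hRI⟩
      · rw [insert_union, insert_union, hRIt, ← htt]
      · rw [card_insert_of_notMem hpqR, card_insert_of_notMem hqR, hRk]; ring
      · rw [E2_insert hA hpqR, E2_insert hA hqR, N_insert hqR, hpq]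
        have n1 := N_nonneg hA q R
        have n2 := N_nonneg hA p R
        push_cast
        linarith
      · rw [htt, sum_insert hpi, sum_insert hqt', hyq, s1]
        simpa using hb
      · rw [htt, sum_insert hpi, sum_insert hqt']
        refine hyF.trans ?_
        simp only [hA.diag, mul_zero, zero_add]
        rw [hpq]
        have h3 := hg p hp q hqt
        obtain ⟨a0, a1, a2, a3⟩ := hw p hp
        obtain ⟨b0, b1, b2, b3⟩ := hw q hqt
        have h4 : |w p - w q| ≤ D := by
          rw [abs_le]; constructor <;> linarith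
        have h5 : (w p - w q) * (w p - w q) ≤ D * (g p + g q) := by
          rw [← abs_mul_abs_self (w p - w q)]
          exact mul_le_mul h4 h3 (abs_nonneg _) hD
        push_cast
        nlinarith
    · obtain ⟨x, hx, hb, hF⟩ := arb_signs hA w g K D hK hD n t ht hw hg
      refine ⟨∅, t, 0, disjoint_empty_left _, by simp, by simp, by simp [E2_empty], ?_, x, hx, hb,
        by simpa using hF⟩
      intro a ha b hb
      rcases hA.zo a b with h | h
      · exact h
      · exact absurd ⟨a, ha, b, hb, h⟩ hadj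

/-- Combining the signs on `t` with a last pair `u, v`. -/
lemma final_signs (hA : IsAdj A) {u v : V} {t : Finset V} (huv : u ≠ v) (hu : u ∉ t) (hv : v ∉ t)
    {x : V → ℤ} (hx : IsSign x) (hb : |∑ z ∈ t, x z| ≤ 1) {M : ℤ}
    (h0 : N A v (insert u (insert v t)) ≤ N A u (insert u (insert v t)))
    (hM1 : N A u (insert u (insert v t)) - N A v (insert u (insert v t)) ≤ M)
    (hM2 : |∑ z ∈ t, N A z (insert u (insert v t)) * x z| ≤ M)
    (hfin : 3 * F A x t + 6 * M < E2 A (insert u (insert v t)) + 8) :
    ∃ S T, Good A (insert u (insert v t)) S T := by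
  set s := insert u (insert v t) with hs
  have hu' : u ∉ insert v t := by simp [huv, hu]
  by_contra hcon
  have key : ∀ e : ℤ, (e = 1 ∨ e = -1) →
      E2 A s + 8 ≤ 3 * (F A x t - 2 * A u v + 2 * (e * (∑ c ∈ t, A u c * x c -
        ∑ c ∈ t, A v c * x c))) + 6 * |e * (N A u s - N A v s) + ∑ z ∈ t, N A z s * x z| := by
    intro e he
    by_contra hlt
    rw [not_le] at hlt
    apply hcon
    let y : V → ℤ := fun z => if z = u then e else if z = v then -e else x z
    have yu : y u = e := by simp [y]
    have yv : y v = -e := by simp [y, huv.symm]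
    have yt : ∀ z ∈ t, y z = x z := by
      intro z hz
      have h1 : z ≠ u := fun h => hu (h ▸ hz)
      have h2 : z ≠ v := fun h => hv (h ▸ hz)
      simp [y, h1, h2]
    have hy : IsSign y := by
      intro z
      by_cases h1 : z = u
      · subst h1; rw [yu]; exact he
      by_cases h2 : z = v
      · subst h2; rw [yv]; rcases he with h | h <;> rw [h] <;> norm_num
      have : y z = x z := by simp [y, h1, h2]
      rw [this]; exact hx z
    refine good_of_sign hA hy s ?_ ?_
    · rw [hs, sum_insert hu', sum_insert hv, yu, yv, sum_congr rfl yt]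
      simpa using hb
    · have e1 : F A y s = F A x t - 2 * A u v + 2 * (e * (∑ c ∈ t, A u c * x c -
          ∑ c ∈ t, A v c * x c)) := by
        rw [hs, F_insert hA.symm y hu', F_insert hA.symm y hv, F_congr A yt, sum_insert hv, yu, yv]
        have s1 : ∑ c ∈ t, A u c * y c = ∑ c ∈ t, A u c * x c :=
          sum_congr rfl fun c hc => by rw [yt c hc]
        have s2 : ∑ c ∈ t, A v c * y c = ∑ c ∈ t, A v c * x c :=
          sum_congr rfl fun c hc => by rw [yt c hc]
        rw [s1, s2, hA.diag, hA.diag]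
        rcases he with h | h <;> rw [h] <;> ring
      have e2 : ∑ a ∈ s, N A a s * y a = e * (N A u s - N A v s) + ∑ z ∈ t, N A z s * x z := by
        have s3 : ∑ z ∈ t, N A z s * y z = ∑ z ∈ t, N A z s * x z :=
          sum_congr rfl fun z hz => by rw [yt z hz]
        rw [hs, sum_insert hu', sum_insert hv, ← hs, yu, yv, s3]
        ring
      rw [e1, e2]
      exact hlt
  have k1 := key 1 (Or.inl rfl)
  have k2 := key (-1) (Or.inr rfl)
  have hAuv := hA.nonneg u v
  rw [abs_le] at hM2
  have a1 : |1 * (N A u s - N A v s) + ∑ z ∈ t, N A z s * x z| +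
      |-1 * (N A u s - N A v s) + ∑ z ∈ t, N A z s * x z| ≤ 2 * M := by
    rcases abs_cases (1 * (N A u s - N A v s) + ∑ z ∈ t, N A z s * x z) with h | h <;>
    rcases abs_cases (-1 * (N A u s - N A v s) + ∑ z ∈ t, N A z s * x z) with h' | h' <;>
    rw [h.1, h'.1] <;> linarith [hM2.1, hM2.2]
  linarith

/-- Three vertices are together incident with at most `m + 3` edge ends. -/
lemma three_vertices (hA : IsAdj A) {s : Finset V} {u v z : V} (hu : u ∈ s) (hv : v ∈ s)
    (hz : z ∈ s) (huv : u ≠ v) (huz : u ≠ z) (hvz : v ≠ z) :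
    2 * (N A u s + N A v s + N A z s) ≤ E2 A s + 6 := by
  have hsub : ({u, v, z} : Finset V) ⊆ s := by
    intro a ha
    simp only [mem_insert, mem_singleton] at ha
    rcases ha with rfl | rfl | rfl <;> assumption
  set P : Finset V := {u, v, z} with hP
  have hdis : Disjoint P (s \ P) := disjoint_sdiff
  have hun : P ∪ (s \ P) = s := union_sdiff_of_subset hsub
  have hE := E2_union hA hdis
  rw [hun] at hE
  have huP : u ∉ ({v, z} : Finset V) := by simp [huv, huz]
  have hvP : v ∉ ({z} : Finset V) := by simp [hvz]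
  have hsum : ∑ a ∈ P, N A a s = N A u s + N A v s + N A z s := by
    rw [hP, sum_insert huP, sum_insert hvP, sum_singleton]; ring
  have hsum2 : ∑ a ∈ P, N A a s = E2 A P + ∑ b ∈ s \ P, N A b P := by
    rw [← sum_A_comm hA P (s \ P)]
    unfold E2
    rw [← sum_add_distrib]
    refine sum_congr rfl fun a _ => ?_
    rw [← N_union hdis, hun]
  have hEP : E2 A P ≤ 6 := by
    rw [hP, E2_insert hA huP, E2_insert hA hvP]
    have h1 : E2 A {z} = 0 := by simp [E2, N, hA.diag]
    have h2 : N A v {z} ≤ 1 := by simpa [N] using hA.le_one v z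
    have h3 : N A u {v, z} ≤ 2 := by
      rw [N_insert hvP]
      have := hA.le_one u v
      have : N A u {z} ≤ 1 := by simpa [N] using hA.le_one u z
      linarith
    rw [h1]; linarith
  have hnn := E2_nonneg hA (s \ P)
  linarith

/-- The case without a dominating hub. -/
lemma good_of_no_hub (hA : IsAdj A) {s : Finset V} {u v : V} (hu : u ∈ s) (hv : v ∈ s)
    (huv : u ≠ v) (hmax : N A v s ≤ N A u s) (hmax2 : ∀ z ∈ s, z ≠ u → N A z s ≤ N A v s)
    (hno : 6 * (N A u s - N A v s) < E2 A s + 8) : ∃ S T, Good A s S T := by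
  set t := (s.erase u).erase v with ht
  have hv' : v ∈ s.erase u := mem_erase.mpr ⟨huv.symm, hv⟩
  have hst : s = insert u (insert v t) := by
    rw [ht, insert_erase hv', insert_erase hu]
  have hut : u ∉ t := by simp [ht]
  have hvt : v ∉ t := by simp [ht]
  have hsub : ∀ z ∈ t, z ∈ s ∧ z ≠ u ∧ z ≠ v := by
    intro z hz
    rw [ht, mem_erase, mem_erase] at hz
    exact ⟨hz.2.2, hz.2.1, hz.1⟩
  -- bound for the degrees in t
  obtain ⟨M, hM0, hM1, hM2⟩ : ∃ M : ℤ, 0 ≤ M ∧ (∀ z ∈ t, N A z s ≤ M) ∧ 6 * M < E2 A s + 8 := by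
    rcases t.eq_empty_or_nonempty with he | hne
    · refine ⟨0, le_rfl, by simp [he], ?_⟩
      have := E2_nonneg hA s
      linarith
    · obtain ⟨z, hz, hzmax⟩ := exists_max_image t (fun z => N A z s) hne
      obtain ⟨hzs, hzu, hzv⟩ := hsub z hz
      refine ⟨N A z s, N_nonneg hA _ _, hzmax, ?_⟩
      have h3 := three_vertices hA hu hv hzs huv hzu.symm hzv.symm
      have h4 := hmax2 z hzs hzu
      linarith
  obtain ⟨x, hx, hb, hF, hL⟩ := sorted_signs hA (fun z => N A z s) #t t rfl M hM0
    (fun z hz => ⟨N_nonneg hA _ _, hM1 z hz⟩)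
  rw [hst]
  refine final_signs hA huv hut hvt hx hb (M := max (N A u s - N A v s) M) ?_ ?_ ?_ ?_
  · rw [← hst]; exact hmax
  · rw [← hst]; exact le_max_left _ _
  · rw [← hst]; exact hL.trans (le_max_right _ _)
  · rw [← hst]
    rcases max_cases (N A u s - N A v s) M with h | h <;> rw [h.1] <;> linarith

end Pool.Agent.Helper21.Bis
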