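import Mathlib

set_option linter.unusedSectionVars false

namespace Pool.Agent.Helper21.Bis

open Finset

variable {V : Type*} [DecidableEq V]

/-- Adjacency matrices of simple graphs: symmetric, zero diagonal, entries zero or one. -/
structure IsAdj (A : V → V → ℤ) : Prop where
  symm : ∀ a b, A a b = A b a
  diag : ∀ a, A a a = 0
  zo : ∀ a b, A a b = 0 ∨ A a b = 1

/-- Number of neighbours of `v` in `S`. -/
def N (A : V → V → ℤ) (v : V) (S : Finset V) : ℤ := ∑ b ∈ S, A v b

/-- Twice the number of edges inside `S`. -/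
def E2 (A : V → V → ℤ) (S : Finset V) : ℤ := ∑ a ∈ S, N A a S

/-- `(S, T)` is a bisection of `s` with at most a third of the edges inside each class. -/
def Good (A : V → V → ℤ) (s S T : Finset V) : Prop :=
  Disjoint S T ∧ S ∪ T = s ∧ #S ≤ #T + 1 ∧ #T ≤ #S + 1 ∧
    3 * E2 A S ≤ E2 A s ∧ 3 * E2 A T ≤ E2 A s

lemma Good.swap {A : V → V → ℤ} {s S T : Finset V} (h : Good A s S T) : Good A s T S := by
  obtain ⟨h1, h2, h3, h4, h5, h6⟩ := h
  exact ⟨h1.symm, by rw [union_comm]; exact h2, h4, h3, h6, h5⟩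

variable {A : V → V → ℤ}

lemma IsAdj.nonneg (hA : IsAdj A) (a b : V) : 0 ≤ A a b := by
  rcases hA.zo a b with h | h <;> omega

lemma IsAdj.le_one (hA : IsAdj A) (a b : V) : A a b ≤ 1 := by
  rcases hA.zo a b with h | h <;> omega

lemma N_empty (v : V) : N A v ∅ = 0 := by simp [N]

lemma N_insert {v z : V} {S : Finset V} (hz : z ∉ S) :
    N A v (insert z S) = A v z + N A v S := by
  unfold N; rw [sum_insert hz]

lemma N_erase {v z : V} {S : Finset V} (hz : z ∈ S) :
    N A v (S.erase z) = N A v S - A v z := by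
  unfold N
  have := Finset.add_sum_erase S (fun b => A v b) hz
  linarith

lemma N_union {v : V} {S T : Finset V} (h : Disjoint S T) :
    N A v (S ∪ T) = N A v S + N A v T := by
  unfold N; rw [sum_union h]

lemma N_nonneg (hA : IsAdj A) (v : V) (S : Finset V) : 0 ≤ N A v S :=
  sum_nonneg fun b _ => hA.nonneg v b

lemma N_mono (hA : IsAdj A) (v : V) {S T : Finset V} (h : S ⊆ T) : N A v S ≤ N A v T :=
  sum_le_sum_of_subset_of_nonneg h fun b _ _ => hA.nonneg v b

lemma N_le_card (hA : IsAdj A) (v : V) (S : Finset V) : N A v S ≤ #S := by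
  unfold N
  calc ∑ b ∈ S, A v b ≤ ∑ _b ∈ S, (1 : ℤ) := sum_le_sum fun b _ => hA.le_one v b
    _ = #S := by simp

lemma le_N (hA : IsAdj A) {v z : V} {S : Finset V} (hz : z ∈ S) : A v z ≤ N A v S :=
  single_le_sum (f := fun b => A v b) (fun b _ => hA.nonneg v b) hz

lemma sum_A_comm (hA : IsAdj A) (S T : Finset V) :
    ∑ a ∈ S, N A a T = ∑ b ∈ T, N A b S := by
  unfold N
  rw [sum_comm]
  exact sum_congr rfl fun b _ => sum_congr rfl fun a _ => hA.symm a b

lemma E2_empty : E2 A ∅ = 0 := by simp [E2]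

lemma E2_insert (hA : IsAdj A) {z : V} {S : Finset V} (hz : z ∉ S) :
    E2 A (insert z S) = E2 A S + 2 * N A z S := by
  have h1 : ∑ a ∈ S, A a z = N A z S := by
    unfold N
    exact sum_congr rfl fun a _ => hA.symm a z
  unfold E2
  rw [sum_insert hz, N_insert hz, hA.diag]
  have : ∑ a ∈ S, N A a (insert z S) = ∑ a ∈ S, A a z + ∑ a ∈ S, N A a S := by
    rw [← sum_add_distrib]
    exact sum_congr rfl fun a _ => N_insert hz
  rw [this, h1]
  ring

lemma E2_erase (hA : IsAdj A) {z : V} {S : Finset V} (hz : z ∈ S) :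
    E2 A (S.erase z) = E2 A S - 2 * N A z S := by
  have h := E2_insert hA (S := S.erase z) (notMem_erase z S)
  rw [insert_erase hz, N_erase hz, hA.diag] at h
  linarith

lemma E2_union (hA : IsAdj A) {S T : Finset V} (h : Disjoint S T) :
    E2 A (S ∪ T) = E2 A S + E2 A T + 2 * ∑ z ∈ T, N A z S := by
  unfold E2
  rw [sum_union h]
  have e1 : ∑ a ∈ S, N A a (S ∪ T) = ∑ a ∈ S, N A a S + ∑ a ∈ S, N A a T := by
    rw [← sum_add_distrib]; exact sum_congr rfl fun a _ => N_union h
  have e2 : ∑ a ∈ T, N A a (S ∪ T) = ∑ a ∈ T, N A a S + ∑ a ∈ T, N A a T := by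
    rw [← sum_add_distrib]; exact sum_congr rfl fun a _ => N_union h
  rw [e1, e2, sum_A_comm hA S T]
  ring

lemma E2_nonneg (hA : IsAdj A) (S : Finset V) : 0 ≤ E2 A S :=
  sum_nonneg fun a _ => N_nonneg hA a S

lemma E2_even (hA : IsAdj A) (S : Finset V) : Even (E2 A S) := by
  induction S using Finset.induction_on with
  | empty => simp [E2_empty]
  | insert z S hz ih =>
    rw [E2_insert hA hz]
    exact ih.add (even_two_mul _)

/-! ### Quadratic forms and signs -/

/-- The quadratic form of the matrix `B` on the coordinates in `t`. -/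
def F (B : V → V → ℤ) (x : V → ℤ) (t : Finset V) : ℤ := ∑ a ∈ t, ∑ b ∈ t, B a b * (x a * x b)

lemma F_empty (B : V → V → ℤ) (x : V → ℤ) : F B x ∅ = 0 := by simp [F]

lemma F_congr (B : V → V → ℤ) {x y : V → ℤ} {t : Finset V} (h : ∀ v ∈ t, x v = y v) :
    F B x t = F B y t :=
  sum_congr rfl fun a ha => sum_congr rfl fun b hb => by rw [h a ha, h b hb]

lemma F_insert {B : V → V → ℤ} (hB : ∀ a b, B a b = B b a) (x : V → ℤ) {z : V} {t : Finset V}
    (hz : z ∉ t) :
    F B x (insert z t) = F B x t + B z z * (x z * x z) + 2 * (x z * ∑ c ∈ t, B z c * x c) := by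
  unfold F
  rw [sum_insert hz, sum_insert hz]
  have e1 : ∑ a ∈ t, ∑ b ∈ insert z t, B a b * (x a * x b)
      = ∑ a ∈ t, B a z * (x a * x z) + ∑ a ∈ t, ∑ b ∈ t, B a b * (x a * x b) := by
    rw [← sum_add_distrib]; exact sum_congr rfl fun a _ => sum_insert hz
  have e2 : ∑ a ∈ t, B a z * (x a * x z) = x z * ∑ c ∈ t, B z c * x c := by
    rw [mul_sum]; exact sum_congr rfl fun a _ => by rw [hB a z]; ring
  have e3 : ∑ b ∈ t, B z b * (x z * x b) = x z * ∑ c ∈ t, B z c * x c := by
    rw [mul_sum]; exact sum_congr rfl fun a _ => by ring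
  rw [e1, e2, e3]
  ring

/-- Sign vectors. -/
def IsSign (x : V → ℤ) : Prop := ∀ v, x v = 1 ∨ x v = -1

lemma IsSign.sq {x : V → ℤ} (hx : IsSign x) (v : V) : x v * x v = 1 := by
  rcases hx v with h | h <;> rw [h] <;> norm_num

/-- Extending signs to two further coordinates `p, q` with opposite signs, without increasing the
quadratic form by more than its diagonal contribution. -/
lemma step {B : V → V → ℤ} (hB : ∀ a b, B a b = B b a) {x : V → ℤ} (hx : IsSign x) {p q : V}
    {t : Finset V} (hpq : p ≠ q) (hp : p ∉ t) (hq : q ∉ t) :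
    ∃ y : V → ℤ, IsSign y ∧ (∀ v ∈ t, y v = x v) ∧ y q = - y p ∧
      F B y (insert p (insert q t)) ≤ F B x t + B p p + B q q - 2 * B p q := by
  have key : ∀ e : ℤ, (e = 1 ∨ e = -1) → ∃ y : V → ℤ, IsSign y ∧ (∀ v ∈ t, y v = x v) ∧
      y q = - y p ∧ F B y (insert p (insert q t)) = F B x t + B p p + B q q - 2 * B p q +
        2 * (e * (∑ c ∈ t, B p c * x c - ∑ c ∈ t, B q c * x c)) := by
    intro e he
    let y : V → ℤ := fun v => if v = p then e else if v = q then -e else x v
    have yp : y p = e := by simp [y]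
    have yq : y q = -e := by simp [y, hpq.symm]
    have yt : ∀ v ∈ t, y v = x v := by
      intro v hv
      have h1 : v ≠ p := fun h => hp (h ▸ hv)
      have h2 : v ≠ q := fun h => hq (h ▸ hv)
      simp [y, h1, h2]
    refine ⟨y, ?_, yt, by rw [yp, yq], ?_⟩
    · intro v
      by_cases h1 : v = p
      · subst h1; rw [yp]; exact he
      by_cases h2 : v = q
      · subst h2; rw [yq]; rcases he with h | h <;> rw [h] <;> norm_num
      have : y v = x v := by simp [y, h1, h2]
      rw [this]; exact hx v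
    · have hp' : p ∉ insert q t := by simp [hpq, hp]
      rw [F_insert hB y hp', F_insert hB y hq, F_congr B yt, sum_insert hq, yp, yq]
      have s1 : ∑ c ∈ t, B p c * y c = ∑ c ∈ t, B p c * x c :=
        sum_congr rfl fun c hc => by rw [yt c hc]
      have s2 : ∑ c ∈ t, B q c * y c = ∑ c ∈ t, B q c * x c :=
        sum_congr rfl fun c hc => by rw [yt c hc]
      rw [s1, s2]
      rcases he with h | h <;> rw [h] <;> ring
  by_cases h : 0 ≤ ∑ c ∈ t, B p c * x c - ∑ c ∈ t, B q c * x c
  · obtain ⟨y, h1, h2, h3, h4⟩ := key (-1) (Or.inr rfl)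
    exact ⟨y, h1, h2, h3, by rw [h4]; linarith⟩
  · obtain ⟨y, h1, h2, h3, h4⟩ := key 1 (Or.inl rfl)
    exact ⟨y, h1, h2, h3, by rw [h4]; linarith⟩

/-- The edge counts of the two classes of a sign vector. -/
lemma four_E2_pos {x : V → ℤ} (hx : IsSign x) (s : Finset V) (e : ℤ) (he : e = 1 ∨ e = -1)
    (hA : IsAdj A) :
    4 * E2 A (s.filter fun v => x v = e) =
      E2 A s + 2 * (e * ∑ a ∈ s, N A a s * x a) + F A x s := by
  have h1 : ∀ v, (if x v = e then (2 : ℤ) else 0) = 1 + e * x v := by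
    intro v
    rcases hx v with h | h <;> rcases he with h' | h' <;> rw [h, h'] <;> norm_num
  have h2 : 4 * E2 A (s.filter fun v => x v = e) =
      ∑ a ∈ s, ∑ b ∈ s, A a b * ((1 + e * x a) * (1 + e * x b)) := by
    unfold E2 N
    rw [sum_filter, mul_sum]
    refine sum_congr rfl fun a _ => ?_
    rw [sum_filter]
    by_cases ha : x a = e
    · rw [if_pos ha, mul_sum]
      refine sum_congr rfl fun b _ => ?_
      rw [← h1 a, ← h1 b, if_pos ha]
      split_ifs <;> ring
    · rw [if_neg ha]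
      have : (1 + e * x a) = 0 := by rw [← h1 a, if_neg ha]
      rw [this]
      simp
  rw [h2]
  have hee : e * e = 1 := by rcases he with h | h <;> rw [h] <;> norm_num
  have h3 : ∀ a b, A a b * ((1 + e * x a) * (1 + e * x b)) =
      A a b + e * (A a b * x a) + e * (A a b * x b) + A a b * (x a * x b) := by
    intro a b
    have : (1 + e * x a) * (1 + e * x b) = 1 + e * x a + e * x b + (e * e) * (x a * x b) := by ring
    rw [this, hee]; ring
  have h4 : ∑ a ∈ s, ∑ b ∈ s, e * (A a b * x a) = e * ∑ a ∈ s, N A a s * x a := by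
    rw [mul_sum]
    refine sum_congr rfl fun a _ => ?_
    unfold N
    rw [sum_mul, mul_sum]
  have h5 : ∑ a ∈ s, ∑ b ∈ s, e * (A a b * x b) = e * ∑ a ∈ s, N A a s * x a := by
    rw [sum_comm, ← h4]
    exact sum_congr rfl fun a _ => sum_congr rfl fun b _ => by rw [hA.symm b a]
  simp_rw [h3, sum_add_distrib]
  rw [h4, h5]
  unfold E2 F N
  ring

/-- A sign vector with small quadratic form and small linear form yields a good bisection. -/
lemma good_of_sign (hA : IsAdj A) {x : V → ℤ} (hx : IsSign x) (s : Finset V)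
    (hbal : |∑ v ∈ s, x v| ≤ 1)
    (h : 3 * F A x s + 6 * |∑ a ∈ s, N A a s * x a| < E2 A s + 8) :
    ∃ S T, Good A s S T := by
  refine ⟨s.filter fun v => x v = 1, s.filter fun v => x v = -1, ?_, ?_, ?_⟩
  · rw [disjoint_filter]
    intro v _ h1 h2
    rw [h1] at h2; norm_num at h2
  · ext v
    simp only [mem_union, mem_filter]
    constructor
    · rintro (h | h) <;> exact h.1
    · intro hv
      rcases hx v with h | h
      · exact Or.inl ⟨hv, h⟩
      · exact Or.inr ⟨hv, h⟩
  · have hsum : ∑ v ∈ s, x v =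
        (#(s.filter fun v => x v = 1) : ℤ) - #(s.filter fun v => x v = -1) := by
      rw [card_filter, card_filter]
      push_cast
      rw [← sum_sub_distrib]
      refine sum_congr rfl fun v _ => ?_
      rcases hx v with h | h <;> rw [h] <;> norm_num
    rw [hsum, abs_le] at hbal
    have e1 := four_E2_pos hx s 1 (Or.inl rfl) hA
    have e2 := four_E2_pos hx s (-1) (Or.inr rfl) hA
    have l1 := le_abs_self (∑ a ∈ s, N A a s * x a)
    have l2 := neg_abs_le (∑ a ∈ s, N A a s * x a)
    obtain ⟨m, hm⟩ := E2_even hA s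
    obtain ⟨k1, hk1⟩ := E2_even hA (s.filter fun v => x v = 1)
    obtain ⟨k2, hk2⟩ := E2_even hA (s.filter fun v => x v = -1)
    refine ⟨by omega, by omega, ?_, ?_⟩
    · omega
    · omega

end Pool.Agent.Helper21.Bis
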