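import Pool.Agent.Helper21.BisAvg

set_option linter.unusedSectionVars false

namespace Pool.Agent.Helper21.Bis

open Finset

variable {V : Type*} [DecidableEq V] {A : V → V → ℤ}

lemma F_combine (A : V → V → ℤ) (w x : V → ℤ) (K : ℤ) (t : Finset V) :
    F (fun a b => K * A a b + w a * w b) x t =
      K * F A x t + (∑ z ∈ t, w z * x z) * (∑ z ∈ t, w z * x z) := by
  unfold F
  rw [mul_sum, sum_mul_sum, ← sum_add_distrib]
  refine sum_congr rfl fun a _ => ?_
  rw [mul_sum, ← sum_add_distrib]
  refine sum_congr rfl fun b _ => ?_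
  ring

/-- The degree-two neighbours of the hub `u`. -/
def leaves (A : V → V → ℤ) (s : Finset V) (u : V) : Finset V :=
  s.filter fun p => A u p = 1 ∧ N A p s = 2

/-- The case with a dominating hub having few degree-two neighbours. -/
lemma good_of_hub_few (hA : IsAdj A) {s : Finset V} {u v : V} (hu : u ∈ s) (hv : v ∈ s)
    (huv : u ≠ v) (hmax2 : ∀ z ∈ s, z ≠ u → N A z s ≤ N A v s)
    (hdeg : ∀ z ∈ s, 2 ≤ N A z s)
    (hOH : E2 A s + 8 ≤ 6 * (N A u s - N A v s))
    (hfew : 2 * (#(leaves A s u) : ℤ) ≤ 3 * N A v s + 3) : ∃ S T, Good A s S T := by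
  set t := (s.erase u).erase v with ht
  have hv' : v ∈ s.erase u := mem_erase.mpr ⟨huv.symm, hv⟩
  have hst : s = insert u (insert v t) := by
    rw [ht, insert_erase hv', insert_erase hu]
  have hut : u ∉ t := by simp [ht]
  have hvt : v ∉ t := by simp [ht]
  have huvt : u ∉ insert v t := by simp [huv, hut]
  have hsub : ∀ z ∈ t, z ∈ s ∧ z ≠ u ∧ z ≠ v := by
    intro z hz
    rw [ht, mem_erase, mem_erase] at hz
    exact ⟨hz.2.2, hz.2.1, hz.1⟩
  set a := N A u s with ha
  set d := N A v s with hd
  set K := 2 * (a - d) with hK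
  have hE0 := E2_nonneg hA s
  have hd2 : 2 ≤ d := hdeg v hv
  have hKpos : 0 < K := by rw [hK]; linarith
  let w : V → ℤ := fun z => N A z s
  let g : V → ℤ := fun z => N A z s - 3 + (if N A z s = 2 then 2 else 0)
  have hw : ∀ z ∈ t, 0 ≤ w z ∧ w z ≤ d ∧ 0 ≤ g z ∧ w z ≤ g z + 3 := by
    intro z hz
    obtain ⟨h1, h2, h3⟩ := hsub z hz
    have h4 := hmax2 z h1 h2
    have h5 := hdeg z h1
    simp only [w, g]
    refine ⟨by linarith, h4, ?_, ?_⟩ <;> split_ifs <;> omega
  have hg : ∀ p ∈ t, ∀ q ∈ t, |w p - w q| ≤ g p + g q := by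
    intro p hp q hq
    have h5 := hdeg p (hsub p hp).1
    have h6 := hdeg q (hsub q hq).1
    simp only [w, g]
    rw [abs_le]
    constructor <;> split_ifs <;> omega
  obtain ⟨R, I, k, hRI, hRIt, hRk, hRE, hI, x, hx, hb, hF⟩ :=
    matching_signs hA w g K d hKpos.le (by linarith) #t t rfl hw hg
  rw [F_combine] at hF
  set L := ∑ z ∈ t, w z * x z with hL
  -- cardinalities
  have hcs : #s = #t + 2 := by
    rw [hst, card_insert_of_notMem huvt, card_insert_of_notMem hvt]
  have hct : (#t : ℤ) = 2 * k + #I := by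
    have : #t = #R + #I := by rw [← hRIt, card_union_of_disjoint hRI]
    rw [this, hRk]; push_cast; ring
  have han : a ≤ (#s : ℤ) - 1 := by
    have h1 : a = N A u (s.erase u) := by
      rw [N_erase hu, hA.diag]; ring
    have h2 := N_le_card hA u (s.erase u)
    have h3 := card_erase_add_one hu
    rw [h1]
    have : (#(s.erase u) : ℤ) + 1 = #s := by exact_mod_cast h3
    linarith
  -- the sum of g
  have hE2sum : E2 A s = a + d + ∑ z ∈ t, w z := by
    have : E2 A s = ∑ z ∈ s, N A z s := rfl
    rw [this]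
    conv_lhs => rw [hst]
    rw [sum_insert huvt, sum_insert hvt, ← hst]
    simp only [w, ha, hd]
    ring
  have hgsum : ∑ z ∈ t, g z = ∑ z ∈ t, w z - 3 * #t + 2 * #(t.filter fun z => N A z s = 2) := by
    have e1 : ∑ z ∈ t, g z = ∑ z ∈ t, (w z - 3) + ∑ z ∈ t, (if N A z s = 2 then (2 : ℤ) else 0) := by
      rw [← sum_add_distrib]
    rw [e1, sum_sub_distrib]
    have e2 : ∑ z ∈ t, (if N A z s = 2 then (2 : ℤ) else 0) =
        2 * #(t.filter fun z => N A z s = 2) := by
      rw [← sum_filter, sum_const, nsmul_eq_mul]; ring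
    rw [e2]
    simp only [sum_const, nsmul_eq_mul]
    ring
  have hA0 : (#(t.filter fun z => A u z = 0) : ℤ) ≤ (#s : ℤ) - 1 - a := by
    have e1 : a = A u v + ∑ z ∈ t, A u z := by
      have : a = ∑ z ∈ s, A u z := rfl
      rw [this]
      conv_lhs => rw [hst]
      rw [sum_insert huvt, sum_insert hvt, hA.diag]
      ring
    have e2 : ∑ z ∈ t, A u z + #(t.filter fun z => A u z = 0) = #t := by
      rw [card_filter]
      push_cast
      rw [← sum_add_distrib]
      have : ∀ z ∈ t, A u z + (if A u z = 0 then (1 : ℤ) else 0) = 1 := by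
        intro z _
        rcases hA.zo u z with h | h <;> rw [h] <;> norm_num
      rw [sum_congr rfl this]
      simp
    have e3 := hA.le_one u v
    have e4 : (#s : ℤ) = #t + 2 := by rw [hcs]; push_cast; ring
    linarith
  have hdeg2 : (#(t.filter fun z => N A z s = 2) : ℤ) ≤
      #(leaves A s u) + #(t.filter fun z => A u z = 0) := by
    have : t.filter (fun z => N A z s = 2) ⊆ leaves A s u ∪ t.filter (fun z => A u z = 0) := by
      intro z hz
      rw [mem_filter] at hz
      rw [mem_union]
      rcases hA.zo u z with h | h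
      · exact Or.inr (mem_filter.mpr ⟨hz.1, h⟩)
      · exact Or.inl (mem_filter.mpr ⟨(hsub z hz.1).1, h, hz.2⟩)
    exact_mod_cast (card_le_card this).trans (card_union_le _ _)
  have hG : ∑ z ∈ t, g z + 3 ≤ K := by
    have e4 : (#s : ℤ) = #t + 2 := by rw [hcs]; push_cast; ring
    rw [hgsum, hK]
    linarith
  -- counting the edges
  set R' := insert v R with hR'
  have hvR : v ∉ R := fun h => hvt (hRIt ▸ mem_union_left _ h)
  have hvI : v ∉ I := fun h => hvt (hRIt ▸ mem_union_right _ h)
  have huR' : u ∉ R' ∪ I := by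
    rw [hR', insert_union, hRIt]; exact huvt
  have hsR : s = insert u (R' ∪ I) := by
    rw [hR', insert_union, hRIt, ← hst]
  have hR'I : Disjoint R' I := by
    rw [hR', disjoint_insert_left]; exact ⟨hvI, hRI⟩
  have hcount : 2 * (k : ℤ) + 2 * (2 * #I - #(leaves A s u)) + 2 * a ≤ E2 A s := by
    have c1 : E2 A s = E2 A (R' ∪ I) + 2 * N A u (R' ∪ I) := by
      conv_lhs => rw [hsR]
      exact E2_insert hA huR'
    have c2 : N A u (R' ∪ I) = a := by
      have : a = N A u (insert u (R' ∪ I)) := by rw [← hsR]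
      rw [this, N_insert huR', hA.diag]; ring
    have c3 := E2_union hA hR'I
    have c4 : (2 * k : ℤ) ≤ E2 A R' := by
      rw [hR', E2_insert hA hvR]
      have := N_nonneg hA v R
      linarith
    have c5 := E2_nonneg hA I
    have c6 : ∀ z ∈ I, N A z s = A u z + N A z R' := by
      intro z hz
      have h1 : N A z I = 0 := sum_eq_zero fun b hb => hI z hz b hb
      conv_lhs => rw [hsR]
      rw [N_insert huR', N_union hR'I, h1, hA.symm z u]
      ring
    have hIt : ∀ z ∈ I, z ∈ t := fun z hz => hRIt ▸ mem_union_right _ hz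
    have c7 : 2 * (#I : ℤ) - #(leaves A s u) ≤ ∑ z ∈ I, N A z R' := by
      have h1 : ∀ z ∈ I, 2 - (if A u z = 1 ∧ N A z s = 2 then (1 : ℤ) else 0) ≤ N A z R' := by
        intro z hz
        have h2 := c6 z hz
        have h3 := hdeg z (hsub z (hIt z hz)).1
        have h4 := hA.zo u z
        split_ifs with h
        · omega
        · rcases h4 with h4 | h4
          · omega
          · have : N A z s ≠ 2 := fun h5 => h ⟨h4, h5⟩
            omega
      have h2 := sum_le_sum h1
      rw [sum_sub_distrib, ← sum_filter, sum_const, sum_const] at h2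
      simp only [nsmul_eq_mul, mul_one] at h2
      have h3 : (#(I.filter fun z => A u z = 1 ∧ N A z s = 2) : ℤ) ≤ #(leaves A s u) := by
        have : I.filter (fun z => A u z = 1 ∧ N A z s = 2) ⊆ leaves A s u := by
          intro z hz
          rw [mem_filter] at hz
          exact mem_filter.mpr ⟨(hsub z (hIt z hz.1)).1, hz.2⟩
        exact_mod_cast card_le_card this
      linarith
    rw [c1, c2, c3]
    linarith
  -- conclusion
  rw [hst]
  refine final_signs hA huv hut hvt hx hb (M := max (a - d) |L|) ?_ ?_ ?_ ?_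
  · rw [← hst]; linarith
  · rw [← hst]; exact le_max_left _ _
  · rw [← hst]; exact le_max_right _ _
  · rw [← hst]
    set M := max (a - d) |L| with hM
    have hM2 : 2 * K * M ≤ K * K + L * L := by
      rcases max_cases (a - d) |L| with h | h
      · rw [hM, h.1]
        have : 2 * K * (a - d) = K * K := by rw [hK]; ring
        rw [this]
        nlinarith [mul_self_nonneg L]
      · rw [hM, h.1, ← abs_mul_abs_self L]
        nlinarith [mul_self_nonneg (K - |L|)]
    have hdG : d * (∑ z ∈ t, g z + 3) ≤ d * K := mul_le_mul_of_nonneg_left hG (by linarith)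
    have h1 : K * (F A x t + 2 * M) ≤ K * (d - 2 * k + K) := by
      nlinarith
    have h2 : F A x t + 2 * M ≤ d - 2 * k + K := le_of_mul_le_mul_left h1 hKpos
    have e4 : (#s : ℤ) = #t + 2 := by rw [hcs]; push_cast; ring
    rw [hK] at h2
    linarith

end Pool.Agent.Helper21.Bis
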