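import Pool.Agent.Helper21.BisRed

set_option linter.unusedSectionVars false

namespace Pool.Agent.Helper21.Bis

open Finset

variable {V : Type*} [DecidableEq V] {A : V → V → ℤ}

lemma LeafN.adj (hA : IsAdj A) {s : Finset V} {u p x : V} (hp : p ∈ leaves A s u)
    (h : LeafN A s u p x) : A x p = 1 := by
  rw [hA.symm, h.2.2 x h.1, if_neg h.2.1, if_pos rfl]; norm_num

lemma three_le_N (hA : IsAdj A) {s : Finset V} {x a b c : V} (ha : a ∈ s) (hb : b ∈ s) (hc : c ∈ s)
    (hab : a ≠ b) (hac : a ≠ c) (hbc : b ≠ c) (h1 : A x a = 1) (h2 : A x b = 1) (h3 : A x c = 1) :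
    3 ≤ N A x s := by
  have hsub : ({a, b, c} : Finset V) ⊆ s := by
    intro z hz
    simp only [mem_insert, mem_singleton] at hz
    rcases hz with rfl | rfl | rfl <;> assumption
  refine le_trans ?_ (N_mono hA x hsub)
  rw [N_insert (by simp [hab, hac]), N_insert (by simp [hbc]), h1, h2]
  have : N A x {c} = 1 := by simpa [N] using h3
  rw [this]; norm_num

/-- Pigeonhole: two leaves share a second neighbour different from `x0`. -/
lemma exists_share (hA : IsAdj A) {s : Finset V} {u : V} {f : V → V}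
    (hf : ∀ p ∈ leaves A s u, LeafN A s u p (f p))
    (hfl : ∀ p ∈ leaves A s u, f p ∉ leaves A s u)
    (hadj : ∀ p ∈ leaves A s u, ∀ q ∈ leaves A s u, f p ≠ f q → A (f p) (f q) = 1)
    {d : ℤ} (hd : ∀ z ∈ s, z ≠ u → N A z s ≤ d) (hmany : d < #(leaves A s u))
    {p0 : V} (hp0 : p0 ∈ leaves A s u) :
    ∃ p ∈ leaves A s u, ∃ p' ∈ leaves A s u, p ≠ p' ∧ f p = f p' ∧ f p ≠ f p0 := by
  by_contra hcon
  push Not at hcon
  have hx := hf p0 hp0
  have hxd := hd _ hx.1 hx.2.1
  let h : V → V := fun p => if f p = f p0 then p else f p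
  have hmaps : ∀ p ∈ leaves A s u, h p ∈ s.filter fun b => A (f p0) b = 1 := by
    intro p hp
    by_cases h1 : f p = f p0
    · have : h p = p := if_pos h1
      rw [this, mem_filter]
      refine ⟨(mem_filter.mp hp).1, ?_⟩
      rw [← h1]
      exact (hf p hp).adj hA hp
    · have : h p = f p := if_neg h1
      rw [this, mem_filter]
      exact ⟨(hf p hp).1, hadj p0 hp0 p hp (Ne.symm h1)⟩
  have hinj : Set.InjOn h (leaves A s u) := by
    intro p hp q hq hpq
    have hp' : p ∈ leaves A s u := by simpa using hp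
    have hq' : q ∈ leaves A s u := by simpa using hq
    by_cases h1 : f p = f p0
    · have e1 : h p = p := if_pos h1
      by_cases h2 : f q = f p0
      · have e2 : h q = q := if_pos h2
        rw [e1, e2] at hpq
        exact hpq
      · have e2 : h q = f q := if_neg h2
        rw [e1, e2] at hpq
        exact absurd (hpq ▸ hp') (hfl q hq')
    · have e1 : h p = f p := if_neg h1
      by_cases h2 : f q = f p0
      · have e2 : h q = q := if_pos h2
        rw [e1, e2] at hpq
        exact absurd (hpq ▸ hq') (hfl p hp')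
      · have e2 : h q = f q := if_neg h2
        rw [e1, e2] at hpq
        by_contra hne
        exact h1 (hcon p hp' q hq' hne hpq)
  have hcard := card_le_card_of_injOn h hmaps hinj
  have hcount : (#(s.filter fun b => A (f p0) b = 1) : ℤ) ≤ N A (f p0) s := by
    unfold N
    rw [card_filter]
    push_cast
    apply sum_le_sum
    intro b _
    split_ifs with hb
    · rw [hb]
    · exact hA.nonneg _ _
  have : (#(leaves A s u) : ℤ) ≤ #(s.filter fun b => A (f p0) b = 1) := by exact_mod_cast hcard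
  linarith

/-- Every graph of minimum degree at least two has a bisection with at most a third of the edges
inside each class. -/
theorem exists_good (n : ℕ) : ∀ (s : Finset V) (A : V → V → ℤ), IsAdj A → #s = n →
    (∀ z ∈ s, 2 ≤ N A z s) → ∃ S T, Good A s S T := by
  induction n using Nat.strong_induction_on with
  | _ n ihn =>
  intro s A hA hsn hdeg
  have ih : ∀ (s' : Finset V) (A' : V → V → ℤ), IsAdj A' → #s' < #s →
      (∀ z ∈ s', 2 ≤ N A' z s') → ∃ S T, Good A' s' S T := fun s' A' hA' hlt hdeg' =>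
    ihn _ (hsn ▸ hlt) s' A' hA' rfl hdeg'
  rcases s.eq_empty_or_nonempty with rfl | hne
  · exact ⟨∅, ∅, by simp, by simp, by simp, by simp, by simp [E2], by simp [E2]⟩
  obtain ⟨u, hu, hmax⟩ := s.exists_max_image (fun z => N A z s) hne
  have hne' : (s.erase u).Nonempty := by
    by_contra hcon
    rw [not_nonempty_iff_eq_empty] at hcon
    have h1 := hdeg u hu
    have h2 : N A u (s.erase u) = N A u s - A u u := N_erase hu
    rw [hcon, hA.diag, N_empty] at h2
    linarith
  obtain ⟨v, hv, hmax2'⟩ := (s.erase u).exists_max_image (fun z => N A z s) hne'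
  have hvs : v ∈ s := mem_of_mem_erase hv
  have huv : u ≠ v := (ne_of_mem_erase hv).symm
  have hmax2 : ∀ z ∈ s, z ≠ u → N A z s ≤ N A v s := fun z hz hzu =>
    hmax2' z (mem_erase.mpr ⟨hzu, hz⟩)
  by_cases hno : 6 * (N A u s - N A v s) < E2 A s + 8
  · exact good_of_no_hub hA hu hvs huv (hmax v hvs) hmax2 hno
  have hOH : E2 A s + 8 ≤ 6 * (N A u s - N A v s) := not_lt.mp hno
  by_cases hfew : 2 * (#(leaves A s u) : ℤ) ≤ 3 * N A v s + 3
  · exact good_of_hub_few hA hu hvs huv hmax2 hdeg hOH hfew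
  rw [not_le] at hfew
  have hv2 := hdeg v hvs
  have hmany : N A v s < #(leaves A s u) := by linarith
  have hu4 : 4 ≤ N A u s := by
    have := E2_nonneg hA s
    have h2 : (8 : ℤ) ≤ 6 * (N A u s - N A v s) := by linarith
    omega
  -- the second neighbours
  have hex : ∀ p, ∃ x, p ∈ leaves A s u → LeafN A s u p x := by
    intro p
    by_cases hp : p ∈ leaves A s u
    · obtain ⟨x, hx⟩ := exists_leafN hA hu hp
      exact ⟨x, fun _ => hx⟩
    · exact ⟨p, fun h => absurd h hp⟩
  choose f hf using hex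
  by_cases h1 : ∃ p ∈ leaves A s u, f p ∈ leaves A s u
  · obtain ⟨p, hp, hq⟩ := h1
    have hpn := hf p hp
    have hqn := hf (f p) hq
    have hpu : p ≠ u := by
      rintro rfl
      have := (mem_filter.mp hp).2.1
      rw [hA.diag] at this
      norm_num at this
    have hfp : f (f p) = p := by
      have h2 := hqn.2.2 p (mem_filter.mp hp).1
      rw [if_neg hpu, hpn.adj hA hp] at h2
      by_contra hne
      rw [if_neg (fun h => hne h.symm)] at h2
      norm_num at h2
    rw [hfp] at hqn
    exact red_adjacent hA hu hdeg hu4 (fun s' hlt hd' => ih s' A hA hlt hd') hp hq hpn hqn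
  push Not at h1
  by_cases h2 : ∃ p ∈ leaves A s u, ∃ q ∈ leaves A s u, f p ≠ f q ∧ A (f p) (f q) = 0
  · obtain ⟨p, hp, q, hq, hne2, hA0⟩ := h2
    exact red_far hA hu hdeg hu4 ih hp hq (hf p hp) (hf q hq) (h1 p hp) (h1 q hq) hne2 hA0
  push Not at h2
  have hadj : ∀ p ∈ leaves A s u, ∀ q ∈ leaves A s u, f p ≠ f q → A (f p) (f q) = 1 := by
    intro p hp q hq hne2
    rcases hA.zo (f p) (f q) with h | h
    · exact absurd h (h2 p hp q hq hne2)
    · exact h
  have hLne : (leaves A s u).Nonempty := by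
    rw [← card_pos]
    have : (0 : ℤ) < #(leaves A s u) := by linarith
    exact_mod_cast this
  obtain ⟨p0, hp0⟩ := hLne
  obtain ⟨q, hq, q', hq', hqq, hfq, _⟩ := exists_share hA hf h1 hadj hmax2 hmany hp0
  obtain ⟨p, hp, p', hp', hpp, hfp, hne3⟩ := exists_share hA hf h1 hadj hmax2 hmany hq
  have hxy : A (f p) (f q) = 1 := hadj p hp q hq hne3
  have hyx : A (f q) (f p) = 1 := by rw [hA.symm]; exact hxy
  have hpn := hf p hp
  have hpn' : LeafN A s u p' (f p) := hfp ▸ hf p' hp'
  have hqn := hf q hq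
  have hqn' : LeafN A s u q' (f q) := hfq ▸ hf q' hq'
  have hps := (mem_filter.mp hp).1
  have hps' := (mem_filter.mp hp').1
  have hqs := (mem_filter.mp hq).1
  have hqs' := (mem_filter.mp hq').1
  have hx3 : 3 ≤ N A (f p) s := three_le_N hA hps hps' hqn.1 hpp
    (fun h => h1 q hq (h ▸ hp)) (fun h => h1 q hq (h ▸ hp')) (hpn.adj hA hp) (hpn'.adj hA hp') hxy
  have hy3 : 3 ≤ N A (f q) s := three_le_N hA hqs hqs' hpn.1 hqq
    (fun h => h1 p hp (h ▸ hq)) (fun h => h1 p hp (h ▸ hq')) (hqn.adj hA hq) (hqn'.adj hA hq') hyx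
  rcases hA.zo u (f p) with hux | hux
  · exact red_same hA hu hdeg hu4 ih hp hp' hpp hpn hpn' (h1 p hp) hx3 hux
  · exact red_triangle hA hu hdeg hu4 (fun s' hlt hd' => ih s' A hA hlt hd') hmax2 hOH hp hp' hq
      hpp hpn hpn' hqn (h1 p hp) (h1 q hq) hne3 hxy hux hy3

end Pool.Agent.Helper21.Bis
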