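import Pool.Agent.Helper21.BisHub

set_option linter.unusedSectionVars false

namespace Pool.Agent.Helper21.Bis

open Finset

variable {V : Type*} [DecidableEq V] {A : V → V → ℤ}

/-! ### Adding an edge -/

/-- Add the edge `xy` to the graph with adjacency matrix `A`. -/
def addE (A : V → V → ℤ) (x y : V) : V → V → ℤ :=
  fun a b => A a b + (if (a = x ∧ b = y) ∨ (a = y ∧ b = x) then 1 else 0)

lemma addE_adj (hA : IsAdj A) {x y : V} (hxy : x ≠ y) (h0 : A x y = 0) : IsAdj (addE A x y) where
  symm := by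
    intro a b
    unfold addE
    rw [hA.symm a b]
    congr 1
    by_cases h : (a = x ∧ b = y) ∨ (a = y ∧ b = x)
    · rw [if_pos h, if_pos (by tauto)]
    · rw [if_neg h, if_neg (by tauto)]
  diag := by
    intro a
    unfold addE
    rw [hA.diag, if_neg]
    · rfl
    · rintro (⟨h1, h2⟩ | ⟨h1, h2⟩)
      · exact hxy (h1.symm.trans h2)
      · exact hxy (h2.symm.trans h1)
  zo := by
    intro a b
    unfold addE
    by_cases h : (a = x ∧ b = y) ∨ (a = y ∧ b = x)
    · rw [if_pos h]
      right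
      rcases h with ⟨rfl, rfl⟩ | ⟨rfl, rfl⟩
      · rw [h0]; rfl
      · rw [hA.symm, h0]; rfl
    · rw [if_neg h, add_zero]
      exact hA.zo a b

lemma N_addE {x y : V} (hxy : x ≠ y) (v : V) (S : Finset V) :
    N (addE A x y) v S = N A v S + (if v = x ∧ y ∈ S then 1 else 0) +
      (if v = y ∧ x ∈ S then 1 else 0) := by
  unfold N addE
  rw [sum_add_distrib, add_assoc]
  congr 1
  by_cases h1 : v = x
  · subst h1
    have h2 : ¬ (v = y) := hxy
    simp only [true_and, h2, false_and, or_false, if_false, add_zero]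
    rw [sum_ite_eq']
  · by_cases h2 : v = y
    · subst h2
      simp only [h1, false_and, true_and, false_or, if_false, zero_add]
      rw [sum_ite_eq']
    · simp [h1, h2]

lemma E2_addE {x y : V} (hxy : x ≠ y) (S : Finset V) :
    E2 (addE A x y) S = E2 A S + (if x ∈ S ∧ y ∈ S then 2 else 0) := by
  unfold E2
  simp_rw [N_addE hxy]
  rw [sum_add_distrib, sum_add_distrib, add_assoc]
  congr 1
  have e1 : ∑ a ∈ S, (if a = x ∧ y ∈ S then (1 : ℤ) else 0) = if x ∈ S ∧ y ∈ S then 1 else 0 := by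
    by_cases hy : y ∈ S
    · simp only [hy, and_true]
      rw [sum_ite_eq']
    · simp [hy]
  have e2 : ∑ a ∈ S, (if a = y ∧ x ∈ S then (1 : ℤ) else 0) = if x ∈ S ∧ y ∈ S then 1 else 0 := by
    by_cases hx : x ∈ S
    · simp only [hx, and_true, true_and]
      rw [sum_ite_eq']
    · simp [hx]
  rw [e1, e2]
  split_ifs <;> norm_num

/-! ### Leaves -/

/-- `x` is the second neighbour of the leaf `p`. -/
def LeafN (A : V → V → ℤ) (s : Finset V) (u p x : V) : Prop :=
  x ∈ s ∧ x ≠ u ∧ ∀ b ∈ s, A p b = (if b = u then 1 else 0) + (if b = x then 1 else 0)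

lemma exists_leafN (hA : IsAdj A) {s : Finset V} {u p : V} (hu : u ∈ s) (hp : p ∈ leaves A s u) :
    ∃ x, LeafN A s u p x := by
  obtain ⟨hps, h1, h2⟩ := mem_filter.mp hp
  have hpu : A p u = 1 := by rw [hA.symm]; exact h1
  have h3 : N A p (s.erase u) = 1 := by rw [N_erase hu, h2, hpu]; norm_num
  have h4 : ∃ x ∈ s.erase u, A p x = 1 := by
    by_contra hcon
    push Not at hcon
    have : N A p (s.erase u) = 0 := sum_eq_zero fun b hb => by
      rcases hA.zo p b with h | h
      · exact h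
      · exact absurd h (hcon b hb)
    omega
  obtain ⟨x, hx, hpx⟩ := h4
  have h5 : N A p ((s.erase u).erase x) = 0 := by rw [N_erase hx, h3, hpx]; norm_num
  have h6 : ∀ b ∈ (s.erase u).erase x, A p b = 0 :=
    (sum_eq_zero_iff_of_nonneg fun b _ => hA.nonneg p b).mp h5
  have hxu : x ≠ u := ne_of_mem_erase hx
  refine ⟨x, mem_of_mem_erase hx, hxu, ?_⟩
  intro b hb
  by_cases hbu : b = u
  · subst hbu
    rw [if_pos rfl, if_neg hxu.symm, hpu]; norm_num
  · by_cases hbx : b = x
    · subst hbx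
      rw [if_neg hbu, if_pos rfl, hpx]; norm_num
    · rw [if_neg hbu, if_neg hbx, h6 b (mem_erase.mpr ⟨hbx, mem_erase.mpr ⟨hbu, hb⟩⟩)]; norm_num

lemma LeafN.N_eq {s : Finset V} {u p x : V} (h : LeafN A s u p x) {S : Finset V}
    (hS : S ⊆ s) : N A p S = (if u ∈ S then 1 else 0) + (if x ∈ S then 1 else 0) := by
  unfold N
  rw [sum_congr rfl fun b hb => h.2.2 b (hS hb), sum_add_distrib, sum_ite_eq', sum_ite_eq']

lemma erase_comm' (s : Finset V) (p q : V) : (s.erase p).erase q = (s.erase q).erase p :=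
  erase_right_comm

lemma N_erase2 {s : Finset V} {p q v : V} (hp : p ∈ s) (hq : q ∈ s) (hpq : p ≠ q) :
    N A v ((s.erase p).erase q) = N A v s - A v p - A v q := by
  rw [N_erase (mem_erase.mpr ⟨hpq.symm, hq⟩), N_erase hp]

lemma E2_erase2 (hA : IsAdj A) {s : Finset V} {p q : V} (hp : p ∈ s) (hq : q ∈ s) (hpq : p ≠ q) :
    E2 A ((s.erase p).erase q) = E2 A s - 2 * N A p s - 2 * N A q s + 2 * A p q := by
  rw [E2_erase hA (mem_erase.mpr ⟨hpq.symm, hq⟩), E2_erase hA hp, N_erase hp, hA.symm q p]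
  ring

/-- Extending a bisection of `s \ {p, q}`. -/
lemma good_insert (hA : IsAdj A) {s S T : Finset V} {p q : V} (hp : p ∈ s) (hq : q ∈ s)
    (hpq : p ≠ q) (hdis : Disjoint S T) (hun : S ∪ T = (s.erase p).erase q)
    (hc1 : #S ≤ #T + 1) (hc2 : #T ≤ #S + 1)
    (b1 : 3 * (E2 A S + 2 * N A p S) ≤ E2 A s) (b2 : 3 * (E2 A T + 2 * N A q T) ≤ E2 A s) :
    Good A s (insert p S) (insert q T) := by
  have hpn : p ∉ (s.erase p).erase q := by simp
  have hqn : q ∉ (s.erase p).erase q := by simp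
  have hpS : p ∉ S := fun h => hpn (hun ▸ mem_union_left _ h)
  have hpT : p ∉ T := fun h => hpn (hun ▸ mem_union_right _ h)
  have hqS : q ∉ S := fun h => hqn (hun ▸ mem_union_left _ h)
  have hqT : q ∉ T := fun h => hqn (hun ▸ mem_union_right _ h)
  have hq' : q ∈ s.erase p := mem_erase.mpr ⟨hpq.symm, hq⟩
  refine ⟨?_, ?_, ?_, ?_, ?_, ?_⟩
  · rw [disjoint_insert_left, disjoint_insert_right]
    exact ⟨by simp [hpq, hpT], hqS, hdis⟩
  · rw [insert_union, union_insert, hun, insert_erase hq', insert_erase hp]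
  · rw [card_insert_of_notMem hpS, card_insert_of_notMem hqT]; omega
  · rw [card_insert_of_notMem hpS, card_insert_of_notMem hqT]; omega
  · rw [E2_insert hA hpS]; exact b1
  · rw [E2_insert hA hqT]; exact b2

lemma Good.root {s S T : Finset V} {u : V} (h : Good A s S T) (hu : u ∈ s) :
    ∃ S T, Good A s S T ∧ u ∈ S := by
  have : u ∈ S ∪ T := by rw [h.2.1]; exact hu
  rcases mem_union.mp this with h1 | h1
  · exact ⟨S, T, h, h1⟩
  · exact ⟨T, S, h.swap, h1⟩

section Reductions

variable {s : Finset V} {u : V}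

/-- Step 1: two adjacent leaves. -/
lemma red_adjacent (hA : IsAdj A) (hu : u ∈ s) (hdeg : ∀ z ∈ s, 2 ≤ N A z s) (hu4 : 4 ≤ N A u s)
    (ih : ∀ (s' : Finset V), #s' < #s → (∀ z ∈ s', 2 ≤ N A z s') → ∃ S T, Good A s' S T)
    {p q : V} (hp : p ∈ leaves A s u) (hq : q ∈ leaves A s u)
    (hpn : LeafN A s u p q) (hqn : LeafN A s u q p) : ∃ S T, Good A s S T := by
  obtain ⟨hps, hp1, hp2⟩ := mem_filter.mp hp
  obtain ⟨hqs, hq1, hq2⟩ := mem_filter.mp hq
  have hpu : p ≠ u := hqn.2.1
  have hqu : q ≠ u := hpn.2.1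
  have hpq : p ≠ q := by
    rintro rfl
    have := hpn.2.2 p hps
    rw [hA.diag, if_neg hpu, if_pos rfl] at this
    norm_num at this
  have hApq : A p q = 1 := by
    rw [hpn.2.2 q hqs, if_neg hqu, if_pos rfl]; norm_num
  set s' := (s.erase p).erase q with hs'
  have hE : E2 A s' = E2 A s - 6 := by
    rw [hs', E2_erase2 hA hps hqs hpq, hp2, hq2, hApq]; ring
  have hsub : s' ⊆ s := (erase_subset _ _).trans (erase_subset _ _)
  have hus' : u ∈ s' := mem_erase.mpr ⟨hqu.symm, mem_erase.mpr ⟨hpu.symm, hu⟩⟩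
  have hcard : #s' < #s := card_lt_card (Finset.ssubset_of_subset_of_ssubset (erase_subset _ _)
    (erase_ssubset hps))
  have hpn' : p ∉ s' := by simp [hs']
  have hqn' : q ∉ s' := by simp [hs']
  obtain ⟨S0, T0, h0⟩ := ih s' hcard (by
    intro z hz
    have hzs := hsub hz
    have hzp : z ≠ p := fun h => hpn' (h ▸ hz)
    have hzq : z ≠ q := fun h => hqn' (h ▸ hz)
    rw [hs', N_erase2 hps hqs hpq, hA.symm z p, hA.symm z q, hpn.2.2 z hzs, hqn.2.2 z hzs,
      if_neg hzp, if_neg hzq]
    have := hdeg z hzs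
    by_cases hzu : z = u
    · subst hzu; rw [if_pos rfl]; linarith
    · rw [if_neg hzu]; linarith)
  obtain ⟨S, T, hG, huS⟩ := h0.root hus'
  obtain ⟨hd, hun, hc1, hc2, hb1, hb2⟩ := hG
  have hSs : S ⊆ s := (subset_union_left.trans hun.subset).trans hsub
  have hTs : T ⊆ s := (subset_union_right.trans hun.subset).trans hsub
  have huT : u ∉ T := fun h => disjoint_left.mp hd huS h
  have hqS : q ∉ S := fun h => hqn' (hun ▸ mem_union_left _ h)
  have hpT : p ∉ T := fun h => hpn' (hun ▸ mem_union_right _ h)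
  refine ⟨_, _, good_insert hA hps hqs hpq hd hun hc1 hc2 ?_ ?_⟩
  · rw [hpn.N_eq hSs, if_pos huS, if_neg hqS]; linarith
  · rw [hqn.N_eq hTs, if_neg huT, if_neg hpT]; linarith

/-- Step 2: two leaves with distinct nonadjacent second neighbours. -/
lemma red_far (hA : IsAdj A) (hu : u ∈ s) (hdeg : ∀ z ∈ s, 2 ≤ N A z s) (hu4 : 4 ≤ N A u s)
    (ih : ∀ (s' : Finset V) (A' : V → V → ℤ), IsAdj A' → #s' < #s →
      (∀ z ∈ s', 2 ≤ N A' z s') → ∃ S T, Good A' s' S T)
    {p q x y : V} (hp : p ∈ leaves A s u) (hq : q ∈ leaves A s u)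
    (hpn : LeafN A s u p x) (hqn : LeafN A s u q y) (hxl : x ∉ leaves A s u)
    (hyl : y ∉ leaves A s u) (hxy : x ≠ y) (hAxy : A x y = 0) : ∃ S T, Good A s S T := by
  obtain ⟨hps, hp1, hp2⟩ := mem_filter.mp hp
  obtain ⟨hqs, hq1, hq2⟩ := mem_filter.mp hq
  have hpu : p ≠ u := by rintro rfl; rw [hA.diag] at hp1; norm_num at hp1
  have hqu : q ≠ u := by rintro rfl; rw [hA.diag] at hq1; norm_num at hq1
  have hxp : x ≠ p := fun h => hxl (h ▸ hp)
  have hxq : x ≠ q := fun h => hxl (h ▸ hq)
  have hyp : y ≠ p := fun h => hyl (h ▸ hp)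
  have hyq : y ≠ q := fun h => hyl (h ▸ hq)
  have hxu := hpn.2.1
  have hyu := hqn.2.1
  have hpq : p ≠ q := by
    rintro rfl
    have h1 := hpn.2.2 x hpn.1
    have h2 := hqn.2.2 x hpn.1
    rw [if_neg hxu, if_pos rfl] at h1
    rw [if_neg hxu, if_neg hxy] at h2
    omega
  have hApq : A p q = 0 := by
    rw [hpn.2.2 q hqs, if_neg hqu, if_neg hxq.symm]; norm_num
  set s' := (s.erase p).erase q with hs'
  have hE : E2 A s' = E2 A s - 8 := by
    rw [hs', E2_erase2 hA hps hqs hpq, hp2, hq2, hApq]; ring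
  have hsub : s' ⊆ s := (erase_subset _ _).trans (erase_subset _ _)
  have mem' : ∀ z, z ∈ s → z ≠ p → z ≠ q → z ∈ s' := fun z h1 h2 h3 =>
    mem_erase.mpr ⟨h3, mem_erase.mpr ⟨h2, h1⟩⟩
  have hus' : u ∈ s' := mem' u hu hpu.symm hqu.symm
  have hxs' : x ∈ s' := mem' x hpn.1 hxp hxq
  have hys' : y ∈ s' := mem' y hqn.1 hyp hyq
  have hcard : #s' < #s := card_lt_card (Finset.ssubset_of_subset_of_ssubset (erase_subset _ _)
    (erase_ssubset hps))
  have hpn' : p ∉ s' := by simp [hs']
  have hqn' : q ∉ s' := by simp [hs']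
  obtain ⟨S0, T0, h0⟩ := ih s' (addE A x y) (addE_adj hA hxy hAxy) hcard (by
    intro z hz
    have hzs := hsub hz
    rw [N_addE hxy, hs', N_erase2 hps hqs hpq, ← hs', hA.symm z p, hA.symm z q, hpn.2.2 z hzs,
      hqn.2.2 z hzs]
    have hz2 := hdeg z hzs
    by_cases hzu : z = u
    · subst hzu
      rw [if_pos rfl, if_neg hxu.symm, if_neg hyu.symm, if_neg (fun h => hxu.symm h.1),
        if_neg (fun h => hyu.symm h.1)]
      linarith
    · rw [if_neg hzu]
      by_cases hzx : z = x
      · subst hzx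
        rw [if_pos rfl, if_neg hxy, if_pos ⟨rfl, hys'⟩, if_neg (fun h => hxy h.1)]
        linarith
      · by_cases hzy : z = y
        · subst hzy
          rw [if_neg hzx, if_pos rfl, if_neg (fun h => hzx h.1), if_pos ⟨rfl, hxs'⟩]
          linarith
        · rw [if_neg hzx, if_neg hzy, if_neg (fun h => hzx h.1), if_neg (fun h => hzy h.1)]
          linarith)
  obtain ⟨S, T, hG, huS⟩ := h0.root hus'
  obtain ⟨hd, hun, hc1, hc2, hb1, hb2⟩ := hG
  have hSs : S ⊆ s := (subset_union_left.trans hun.subset).trans hsub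
  have hTs : T ⊆ s := (subset_union_right.trans hun.subset).trans hsub
  have huT : u ∉ T := fun h => disjoint_left.mp hd huS h
  have hEs' : E2 (addE A x y) s' = E2 A s - 6 := by
    rw [E2_addE hxy, if_pos ⟨hxs', hys'⟩, hE]; ring
  rw [hEs', E2_addE hxy S] at hb1
  rw [hEs', E2_addE hxy T] at hb2
  have hun' : S ∪ T = (s.erase q).erase p := by rw [hun, hs', erase_comm']
  have hxST : x ∈ S ∪ T := by rw [hun]; exact hxs'
  have hyST : y ∈ S ∪ T := by rw [hun]; exact hys'
  rcases mem_union.mp hxST with hxS | hxT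
  · have hxT : x ∉ T := fun h => disjoint_left.mp hd hxS h
    rcases mem_union.mp hyST with hyS | hyT
    · have hyT : y ∉ T := fun h => disjoint_left.mp hd hyS h
      rw [if_pos ⟨hxS, hyS⟩] at hb1
      rw [if_neg (fun h => hxT h.1)] at hb2
      refine ⟨_, _, good_insert hA hps hqs hpq hd hun hc1 hc2 ?_ ?_⟩
      · rw [hpn.N_eq hSs, if_pos huS, if_pos hxS]; linarith
      · rw [hqn.N_eq hTs, if_neg huT, if_neg hyT]; linarith
    · have hyS : y ∉ S := fun h => disjoint_left.mp hd h hyT
      rw [if_neg (fun h => hyS h.2)] at hb1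
      rw [if_neg (fun h => hxT h.1)] at hb2
      refine ⟨_, _, good_insert hA hqs hps hpq.symm hd hun' hc1 hc2 ?_ ?_⟩
      · rw [hqn.N_eq hSs, if_pos huS, if_neg hyS]; linarith
      · rw [hpn.N_eq hTs, if_neg huT, if_neg hxT]; linarith
  · have hxS : x ∉ S := fun h => disjoint_left.mp hd h hxT
    rw [if_neg (fun h => hxS h.1)] at hb1
    refine ⟨_, _, good_insert hA hps hqs hpq hd hun hc1 hc2 ?_ ?_⟩
    · rw [hpn.N_eq hSs, if_pos huS, if_neg hxS]; linarith
    · rw [hqn.N_eq hTs, if_neg huT]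
      by_cases hyT : y ∈ T
      · rw [if_pos hyT]
        rw [if_pos ⟨hxT, hyT⟩] at hb2
        linarith
      · rw [if_neg hyT]
        rw [if_neg (fun h => hyT h.2)] at hb2
        linarith

/-- Step 3a: two leaves with the same second neighbour not adjacent to the hub. -/
lemma red_same (hA : IsAdj A) (hu : u ∈ s) (hdeg : ∀ z ∈ s, 2 ≤ N A z s) (hu4 : 4 ≤ N A u s)
    (ih : ∀ (s' : Finset V) (A' : V → V → ℤ), IsAdj A' → #s' < #s →
      (∀ z ∈ s', 2 ≤ N A' z s') → ∃ S T, Good A' s' S T)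
    {p q x : V} (hp : p ∈ leaves A s u) (hq : q ∈ leaves A s u) (hpq : p ≠ q)
    (hpn : LeafN A s u p x) (hqn : LeafN A s u q x) (hxl : x ∉ leaves A s u)
    (hx3 : 3 ≤ N A x s) (hAux : A u x = 0) : ∃ S T, Good A s S T := by
  obtain ⟨hps, hp1, hp2⟩ := mem_filter.mp hp
  obtain ⟨hqs, hq1, hq2⟩ := mem_filter.mp hq
  have hpu : p ≠ u := by rintro rfl; rw [hA.diag] at hp1; norm_num at hp1
  have hqu : q ≠ u := by rintro rfl; rw [hA.diag] at hq1; norm_num at hq1
  have hxp : x ≠ p := fun h => hxl (h ▸ hp)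
  have hxq : x ≠ q := fun h => hxl (h ▸ hq)
  have hxu := hpn.2.1
  have hApq : A p q = 0 := by
    rw [hpn.2.2 q hqs, if_neg hqu, if_neg hxq.symm]; norm_num
  set s' := (s.erase p).erase q with hs'
  have hE : E2 A s' = E2 A s - 8 := by
    rw [hs', E2_erase2 hA hps hqs hpq, hp2, hq2, hApq]; ring
  have hsub : s' ⊆ s := (erase_subset _ _).trans (erase_subset _ _)
  have mem' : ∀ z, z ∈ s → z ≠ p → z ≠ q → z ∈ s' := fun z h1 h2 h3 =>
    mem_erase.mpr ⟨h3, mem_erase.mpr ⟨h2, h1⟩⟩
  have hus' : u ∈ s' := mem' u hu hpu.symm hqu.symm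
  have hxs' : x ∈ s' := mem' x hpn.1 hxp hxq
  have hcard : #s' < #s := card_lt_card (Finset.ssubset_of_subset_of_ssubset (erase_subset _ _)
    (erase_ssubset hps))
  obtain ⟨S0, T0, h0⟩ := ih s' (addE A u x) (addE_adj hA hxu.symm hAux) hcard (by
    intro z hz
    have hzs := hsub hz
    rw [N_addE hxu.symm, hs', N_erase2 hps hqs hpq, ← hs', hA.symm z p, hA.symm z q,
      hpn.2.2 z hzs, hqn.2.2 z hzs]
    have hz2 := hdeg z hzs
    by_cases hzu : z = u
    · subst hzu
      rw [if_pos rfl, if_neg hxu.symm, if_pos ⟨rfl, hxs'⟩, if_neg (fun h => hxu.symm h.1)]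
      linarith
    · rw [if_neg hzu]
      by_cases hzx : z = x
      · subst hzx
        rw [if_pos rfl, if_neg (fun h => hxu h.1), if_pos ⟨rfl, hus'⟩]
        linarith
      · rw [if_neg hzx, if_neg (fun h => hzu h.1), if_neg (fun h => hzx h.1)]
        linarith)
  obtain ⟨S, T, hG, huS⟩ := h0.root hus'
  obtain ⟨hd, hun, hc1, hc2, hb1, hb2⟩ := hG
  have hSs : S ⊆ s := (subset_union_left.trans hun.subset).trans hsub
  have hTs : T ⊆ s := (subset_union_right.trans hun.subset).trans hsub
  have huT : u ∉ T := fun h => disjoint_left.mp hd huS h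
  have hEs' : E2 (addE A u x) s' = E2 A s - 6 := by
    rw [E2_addE hxu.symm, if_pos ⟨hus', hxs'⟩, hE]; ring
  rw [hEs', E2_addE hxu.symm S] at hb1
  rw [hEs', E2_addE hxu.symm T] at hb2
  rw [if_neg (fun h => huT h.1)] at hb2
  refine ⟨_, _, good_insert hA hps hqs hpq hd hun hc1 hc2 ?_ ?_⟩
  · rw [hpn.N_eq hSs, if_pos huS]
    by_cases hxS : x ∈ S
    · rw [if_pos hxS]
      rw [if_pos ⟨huS, hxS⟩] at hb1
      linarith
    · rw [if_neg hxS]
      rw [if_neg (fun h => hxS h.2)] at hb1
      linarith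
  · rw [hqn.N_eq hTs, if_neg huT]
    split_ifs <;> linarith

/-- Step 3b: leaves `p, p'` at `x` and a leaf `q` at `y`, where `u, x, y` form a triangle. -/
lemma red_triangle (hA : IsAdj A) (hu : u ∈ s) (hdeg : ∀ z ∈ s, 2 ≤ N A z s) (hu4 : 4 ≤ N A u s)
    (ih : ∀ (s' : Finset V), #s' < #s → (∀ z ∈ s', 2 ≤ N A z s') → ∃ S T, Good A s' S T)
    {d : ℤ} (hmax2 : ∀ z ∈ s, z ≠ u → N A z s ≤ d)
    (hOH : E2 A s + 8 ≤ 6 * (N A u s - d))
    {p p' q x y : V} (hp : p ∈ leaves A s u) (hp' : p' ∈ leaves A s u) (hq : q ∈ leaves A s u)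
    (hpp : p ≠ p')
    (hpn : LeafN A s u p x) (hpn' : LeafN A s u p' x) (hqn : LeafN A s u q y)
    (hxl : x ∉ leaves A s u) (hyl : y ∉ leaves A s u) (hxy : x ≠ y)
    (hAxy : A x y = 1) (hAux : A u x = 1) (hy3 : 3 ≤ N A y s) : ∃ S T, Good A s S T := by
  obtain ⟨hps, hp1, hp2⟩ := mem_filter.mp hp
  obtain ⟨hp's, hp'1, hp'2⟩ := mem_filter.mp hp'
  obtain ⟨hqs, hq1, hq2⟩ := mem_filter.mp hq
  have hpu : p ≠ u := by rintro rfl; rw [hA.diag] at hp1; norm_num at hp1
  have hp'u : p' ≠ u := by rintro rfl; rw [hA.diag] at hp'1; norm_num at hp'1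
  have hqu : q ≠ u := by rintro rfl; rw [hA.diag] at hq1; norm_num at hq1
  have hxp : x ≠ p := fun h => hxl (h ▸ hp)
  have hxp' : x ≠ p' := fun h => hxl (h ▸ hp')
  have hxq : x ≠ q := fun h => hxl (h ▸ hq)
  have hyp : y ≠ p := fun h => hyl (h ▸ hp)
  have hyp' : y ≠ p' := fun h => hyl (h ▸ hp')
  have hyq : y ≠ q := fun h => hyl (h ▸ hq)
  have hxu := hpn.2.1
  have hyu := hqn.2.1
  have hpq : p ≠ q := by
    rintro rfl
    have h1 := hpn.2.2 x hpn.1
    have h2 := hqn.2.2 x hpn.1
    rw [if_neg hxu, if_pos rfl] at h1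
    rw [if_neg hxu, if_neg hxy] at h2
    omega
  have hp'q : p' ≠ q := by
    rintro rfl
    have h1 := hpn'.2.2 x hpn.1
    have h2 := hqn.2.2 x hpn.1
    rw [if_neg hxu, if_pos rfl] at h1
    rw [if_neg hxu, if_neg hxy] at h2
    omega
  have hApq : A p q = 0 := by
    rw [hpn.2.2 q hqs, if_neg hqu, if_neg hxq.symm]; norm_num
  set s' := (s.erase p).erase q with hs'
  have hE : E2 A s' = E2 A s - 8 := by
    rw [hs', E2_erase2 hA hps hqs hpq, hp2, hq2, hApq]; ring
  have hsub : s' ⊆ s := (erase_subset _ _).trans (erase_subset _ _)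
  have mem' : ∀ z, z ∈ s → z ≠ p → z ≠ q → z ∈ s' := fun z h1 h2 h3 =>
    mem_erase.mpr ⟨h3, mem_erase.mpr ⟨h2, h1⟩⟩
  have hus' : u ∈ s' := mem' u hu hpu.symm hqu.symm
  have hxs' : x ∈ s' := mem' x hpn.1 hxp hxq
  have hys' : y ∈ s' := mem' y hqn.1 hyp hyq
  have hp's' : p' ∈ s' := mem' p' hp's hpp.symm hp'q
  have hcards : #s = #s' + 2 := by
    rw [hs']
    have h1 := card_erase_add_one hps
    have h2 := card_erase_add_one (mem_erase.mpr ⟨hpq.symm, hqs⟩ : q ∈ s.erase p)
    omega
  have hcard : #s' < #s := by omega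
  have hpn0 : p ∉ s' := by simp [hs']
  have hqn0 : q ∉ s' := by simp [hs']
  -- the degree of x
  have hAxp : A x p = 1 := by
    rw [hA.symm, hpn.2.2 x hpn.1, if_neg hxu, if_pos rfl]; norm_num
  have hAxp' : A x p' = 1 := by
    rw [hA.symm, hpn'.2.2 x hpn.1, if_neg hxu, if_pos rfl]; norm_num
  have hAxu : A x u = 1 := by rw [hA.symm]; exact hAux
  have hx3 : 3 ≤ N A x s := by
    have h1 : ({u, p, p'} : Finset V) ⊆ s := by
      intro z hz
      simp only [mem_insert, mem_singleton] at hz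
      rcases hz with rfl | rfl | rfl <;> assumption
    refine le_trans ?_ (N_mono hA x h1)
    rw [N_insert (by simp [hpu.symm, hp'u.symm]), N_insert (by simp [hpp]), hAxu, hAxp]
    have : N A x {p'} = 1 := by simpa [N] using hAxp'
    rw [this]; norm_num
  obtain ⟨S0, T0, h0⟩ := ih s' hcard (by
    intro z hz
    have hzs := hsub hz
    rw [hs', N_erase2 hps hqs hpq, hA.symm z p, hA.symm z q, hpn.2.2 z hzs, hqn.2.2 z hzs]
    have hz2 := hdeg z hzs
    by_cases hzu : z = u
    · subst hzu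
      rw [if_pos rfl, if_neg hxu.symm, if_neg hyu.symm]
      linarith
    · rw [if_neg hzu]
      by_cases hzx : z = x
      · subst hzx
        rw [if_pos rfl, if_neg hxy]
        linarith
      · by_cases hzy : z = y
        · subst hzy
          rw [if_neg hzx, if_pos rfl]
          linarith
        · rw [if_neg hzx, if_neg hzy]
          linarith)
  obtain ⟨S, T, hG, huS⟩ := h0.root hus'
  obtain ⟨hd, hun, hc1, hc2, hb1, hb2⟩ := hG
  have hSs' : S ⊆ s' := subset_union_left.trans hun.subset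
  have hTs' : T ⊆ s' := subset_union_right.trans hun.subset
  have hSs : S ⊆ s := hSs'.trans hsub
  have hTs : T ⊆ s := hTs'.trans hsub
  have huT : u ∉ T := fun h => disjoint_left.mp hd huS h
  have hun' : S ∪ T = (s.erase q).erase p := by rw [hun, hs', erase_comm']
  have hxST : x ∈ S ∪ T := by rw [hun]; exact hxs'
  have hyST : y ∈ S ∪ T := by rw [hun]; exact hys'
  have hpS : p ∉ S := fun h => hpn0 (hSs' h)
  have hpT : p ∉ T := fun h => hpn0 (hTs' h)
  have hqS : q ∉ S := fun h => hqn0 (hSs' h)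
  have hqT : q ∉ T := fun h => hqn0 (hTs' h)
  rw [hE] at hb1 hb2
  rcases mem_union.mp hxST with hxS | hxT
  swap
  · -- x in T
    have hxS : x ∉ S := fun h => disjoint_left.mp hd h hxT
    refine ⟨_, _, good_insert hA hps hqs hpq hd hun hc1 hc2 ?_ ?_⟩
    · rw [hpn.N_eq hSs, if_pos huS, if_neg hxS]; linarith
    · rw [hqn.N_eq hTs, if_neg huT]
      split_ifs <;> linarith
  have hxT : x ∉ T := fun h => disjoint_left.mp hd hxS h
  rcases mem_union.mp hyST with hyS | hyT
  swap
  · have hyS : y ∉ S := fun h => disjoint_left.mp hd h hyT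
    refine ⟨_, _, good_insert hA hqs hps hpq.symm hd hun' hc1 hc2 ?_ ?_⟩
    · rw [hqn.N_eq hSs, if_pos huS, if_neg hyS]; linarith
    · rw [hpn.N_eq hTs, if_neg huT, if_neg hxT]; linarith
  have hyT : y ∉ T := fun h => disjoint_left.mp hd hyS h
  by_cases hlow : 3 * (E2 A S + 4) ≤ E2 A s
  · refine ⟨_, _, good_insert hA hps hqs hpq hd hun hc1 hc2 ?_ ?_⟩
    · rw [hpn.N_eq hSs, if_pos huS, if_pos hxS]; linarith
    · rw [hqn.N_eq hTs, if_neg huT, if_neg hyT]; linarith
  rw [not_le] at hlow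
  -- a vertex of T with at most one neighbour in S can be moved to S
  by_cases hz1 : ∃ z ∈ T, N A z S ≤ 1
  · obtain ⟨z, hzT, hz1⟩ := hz1
    have hzS : z ∉ S := fun h => disjoint_left.mp hd h hzT
    have hzs' : z ∈ s' := hTs' hzT
    have hzp : z ≠ p := fun h => hpn0 (h ▸ hzs')
    have hzq : z ≠ q := fun h => hqn0 (h ▸ hzs')
    have hqTz : q ∉ T.erase z := fun h => hqT (mem_of_mem_erase h)
    have hpTz : p ∉ insert q (T.erase z) := by
      simp only [mem_insert, not_or]
      exact ⟨hpq, fun h => hpT (mem_of_mem_erase h)⟩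
    have hTz : T.erase z ⊆ s := (erase_subset _ _).trans hTs
    refine ⟨insert z S, insert p (insert q (T.erase z)), ?_, ?_, ?_, ?_, ?_, ?_⟩
    · rw [disjoint_insert_left]
      refine ⟨by simp [hzp, hzq], ?_⟩
      rw [disjoint_insert_right, disjoint_insert_right]
      exact ⟨hpS, hqS, disjoint_of_subset_right (erase_subset _ _) hd⟩
    · ext b
      have hb : b ∈ S ∪ T ↔ b ∈ s' := by rw [hun]
      rw [mem_union, hs', mem_erase, mem_erase] at hb
      simp only [mem_union, mem_insert, mem_erase]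
      constructor
      · rintro ((h | h) | h)
        · rw [h]; exact hTs hzT
        · exact hSs h
        · rcases h with h | h | h
          · rw [h]; exact hps
          · rw [h]; exact hqs
          · exact hTs h.2
      · intro h
        by_cases h1 : b = p
        · exact Or.inr (Or.inl h1)
        by_cases h2 : b = q
        · exact Or.inr (Or.inr (Or.inl h2))
        rcases hb.mpr ⟨h2, h1, h⟩ with h3 | h3
        · exact Or.inl (Or.inr h3)
        · by_cases h4 : b = z
          · exact Or.inl (Or.inl h4)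
          · exact Or.inr (Or.inr (Or.inr ⟨h4, h3⟩))
    · rw [card_insert_of_notMem hzS, card_insert_of_notMem hpTz, card_insert_of_notMem hqTz,
        card_erase_of_mem hzT]
      have := card_pos.mpr ⟨z, hzT⟩
      omega
    · rw [card_insert_of_notMem hzS, card_insert_of_notMem hpTz, card_insert_of_notMem hqTz,
        card_erase_of_mem hzT]
      have := card_pos.mpr ⟨z, hzT⟩
      omega
    · rw [E2_insert hA hzS]; linarith
    · rw [E2_insert hA hpTz, E2_insert hA hqTz, E2_erase hA hzT, hqn.N_eq hTz,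
        N_insert hqTz, hpn.N_eq hTz, hApq]
      have h1 : u ∉ T.erase z := fun h => huT (mem_of_mem_erase h)
      have h2 : y ∉ T.erase z := fun h => hyT (mem_of_mem_erase h)
      have h3 : x ∉ T.erase z := fun h => hxT (mem_of_mem_erase h)
      rw [if_neg h1, if_neg h2, if_neg h3]
      have := N_nonneg hA z T
      linarith
  push Not at hz1
  -- cardinality facts
  have hcST : #S + #T = #s' := by rw [← card_union_of_disjoint hd, hun]
  have han : N A u s ≤ (#s : ℤ) - 1 := by
    have h1 : N A u s = N A u (s.erase u) := by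
      rw [N_erase hu, hA.diag]; ring
    have h2 := N_le_card hA u (s.erase u)
    have h3 := card_erase_add_one hu
    rw [h1]
    have : (#(s.erase u) : ℤ) + 1 = #s := by exact_mod_cast h3
    linarith
  have hTn : (#s : ℤ) ≤ 2 * #T + 3 := by
    have : #s ≤ 2 * #T + 3 := by omega
    exact_mod_cast this
  have hcut := E2_union hA hd
  rw [hun, hE] at hcut
  have hE2T := E2_nonneg hA T
  have hxd := hmax2 x hpn.1 hxu
  have hNxS2 : 2 ≤ N A x S := by
    have h1 : ({u, y} : Finset V) ⊆ S := by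
      intro z hz
      simp only [mem_insert, mem_singleton] at hz
      rcases hz with rfl | rfl <;> assumption
    refine le_trans ?_ (N_mono hA x h1)
    rw [N_insert (by simp [hyu.symm]), hAxu]
    have : N A x {y} = 1 := by simpa [N] using hAxy
    rw [this]; norm_num
  have hNxsplit : N A x S + N A x T = N A x s - 1 := by
    rw [← N_union hd, hun, hs', N_erase2 hps hqs hpq, hAxp, hA.symm x q, hqn.2.2 x hpn.1,
      if_neg hxu, if_neg hxy]
    ring
  by_cases hz2 : ∃ z ∈ T, N A z S - A x z ≤ N A x S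
  · obtain ⟨z, hzT, hz2⟩ := hz2
    have hzS : z ∉ S := fun h => disjoint_left.mp hd h hzT
    have hzs' : z ∈ s' := hTs' hzT
    have hzp : z ≠ p := fun h => hpn0 (h ▸ hzs')
    have hzq : z ≠ q := fun h => hqn0 (h ▸ hzs')
    have hzx : z ≠ x := fun h => hxT (h ▸ hzT)
    have hzy : z ≠ y := fun h => hyT (h ▸ hzT)
    have hzu : z ≠ u := fun h => huT (h ▸ hzT)
    have hzSx : z ∉ S.erase x := fun h => hzS (mem_of_mem_erase h)
    have hpSx : p ∉ insert z (S.erase x) := by
      simp only [mem_insert, not_or]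
      exact ⟨hzp.symm, fun h => hpS (mem_of_mem_erase h)⟩
    have hxTz : x ∉ T.erase z := fun h => hxT (mem_of_mem_erase h)
    have hqTz : q ∉ insert x (T.erase z) := by
      simp only [mem_insert, not_or]
      exact ⟨hxq.symm, fun h => hqT (mem_of_mem_erase h)⟩
    have hS1 : insert z (S.erase x) ⊆ s := by
      intro b hb
      rcases mem_insert.mp hb with rfl | hb
      · exact hTs hzT
      · exact hSs (mem_of_mem_erase hb)
    have hT1 : insert x (T.erase z) ⊆ s := by
      intro b hb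
      rcases mem_insert.mp hb with rfl | hb
      · exact hSs hxS
      · exact hTs (mem_of_mem_erase hb)
    refine ⟨insert p (insert z (S.erase x)), insert q (insert x (T.erase z)), ?_, ?_, ?_, ?_,
      ?_, ?_⟩
    · rw [disjoint_left]
      intro b hb hb'
      simp only [mem_insert, mem_erase] at hb hb'
      rcases hb with rfl | rfl | ⟨hb1, hb2⟩
      · rcases hb' with h | h | h
        · exact hpq h
        · exact hxp h.symm
        · exact hpT h.2
      · rcases hb' with h | h | h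
        · exact hzq h
        · exact hzx h
        · exact h.1 rfl
      · rcases hb' with h | h | h
        · exact hqS (h ▸ hb2)
        · exact hb1 h
        · exact disjoint_left.mp hd hb2 h.2
    · ext b
      have hb : b ∈ S ∪ T ↔ b ∈ s' := by rw [hun]
      rw [mem_union, hs', mem_erase, mem_erase] at hb
      simp only [mem_union, mem_insert, mem_erase]
      constructor
      · rintro ((h | h | h) | (h | h | h))
        · rw [h]; exact hps
        · rw [h]; exact hTs hzT
        · exact hSs h.2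
        · rw [h]; exact hqs
        · rw [h]; exact hpn.1
        · exact hTs h.2
      · intro h
        by_cases h1 : b = p
        · exact Or.inl (Or.inl h1)
        by_cases h2 : b = q
        · exact Or.inr (Or.inl h2)
        rcases hb.mpr ⟨h2, h1, h⟩ with h3 | h3
        · by_cases h4 : b = x
          · exact Or.inr (Or.inr (Or.inl h4))
          · exact Or.inl (Or.inr (Or.inr ⟨h4, h3⟩))
        · by_cases h4 : b = z
          · exact Or.inl (Or.inr (Or.inl h4))
          · exact Or.inr (Or.inr (Or.inr ⟨h4, h3⟩))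
    · rw [card_insert_of_notMem hpSx, card_insert_of_notMem hzSx, card_insert_of_notMem hqTz,
        card_insert_of_notMem hxTz, card_erase_of_mem hzT, card_erase_of_mem hxS]
      omega
    · rw [card_insert_of_notMem hpSx, card_insert_of_notMem hzSx, card_insert_of_notMem hqTz,
        card_insert_of_notMem hxTz, card_erase_of_mem hzT, card_erase_of_mem hxS]
      omega
    · rw [E2_insert hA hpSx, E2_insert hA hzSx, E2_erase hA hxS, N_erase hxS, hpn.N_eq hS1]
      have h1 : u ∈ insert z (S.erase x) :=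
        mem_insert_of_mem (mem_erase.mpr ⟨hxu.symm, huS⟩)
      have h2 : x ∉ insert z (S.erase x) := by
        simp [hzx.symm]
      rw [if_pos h1, if_neg h2, hA.symm z x]
      linarith
    · rw [E2_insert hA hqTz, E2_insert hA hxTz, E2_erase hA hzT, N_erase hzT, hqn.N_eq hT1]
      have h1 : u ∉ insert x (T.erase z) := by
        simp only [mem_insert, not_or]
        exact ⟨hxu.symm, fun h => huT (mem_of_mem_erase h)⟩
      have h2 : y ∉ insert x (T.erase z) := by
        simp only [mem_insert, not_or]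
        exact ⟨hxy.symm, fun h => hyT (mem_of_mem_erase h)⟩
      rw [if_neg h1, if_neg h2]
      have h3 := N_nonneg hA z T
      have h4 := hA.nonneg x z
      have h5 : 2 * (#T : ℤ) ≤ ∑ b ∈ T, N A b S := by
        have : ∑ _b ∈ T, (2 : ℤ) ≤ ∑ b ∈ T, N A b S :=
          sum_le_sum fun b hb => by have := hz1 b hb; linarith
        rw [sum_const, nsmul_eq_mul] at this
        linarith
      linarith
  · exfalso
    push Not at hz2
    -- the other leaf of x lies in S
    have hp'S : p' ∈ S := by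
      have : p' ∈ S ∪ T := by rw [hun]; exact hp's'
      rcases mem_union.mp this with h | h
      · exact h
      · exfalso
        have h1 := hz2 p' h
        rw [hpn'.N_eq hSs, if_pos huS, if_pos hxS, hAxp'] at h1
        linarith
    have hNxS3 : 3 ≤ N A x S := by
      have h1 : ({u, y, p'} : Finset V) ⊆ S := by
        intro z hz
        simp only [mem_insert, mem_singleton] at hz
        rcases hz with rfl | rfl | rfl <;> assumption
      refine le_trans ?_ (N_mono hA x h1)
      rw [N_insert (by simp [hyu.symm, hp'u.symm]), N_insert (by simp [hyp']), hAxu, hAxy]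
      have : N A x {p'} = 1 := by simpa [N] using hAxp'
      rw [this]; norm_num
    have h5 : 4 * (#T : ℤ) ≤ ∑ b ∈ T, N A b S := by
      have : ∑ _b ∈ T, (4 : ℤ) ≤ ∑ b ∈ T, N A b S :=
        sum_le_sum fun b hb => by
          have h6 := hz2 b hb
          have h7 := hA.nonneg x b
          linarith
      rw [sum_const, nsmul_eq_mul] at this
      linarith
    have hd2 : 2 ≤ d := (hdeg x hpn.1).trans hxd
    linarith

end Reductions

end Pool.Agent.Helper21.Bis
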