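import Mathlib
import Pool.Agent.Helper82.YM.Lat

/-!
# Fourier analysis on `ℤ⁴`: Parseval, positivity of the lazy walk, and the Green function of a loop

`ev θ f = ∑ f(x) e^{i θ·x}`; `⟨f, g⟩ = (2π)^{-4} ∫ conj (ev θ f) (ev θ g) dθ`.
Main results: `walk_nonneg` and `loop_green`.
-/

open MeasureTheory
open scoped ComplexConjugate

noncomputable section

namespace Pool.Agent.Helper82.YM

/-- The character `x ↦ e^{i θ·x}`. -/
def chr (θ : Fin 4 → ℝ) : Multiplicative (Fin 4 → ℤ) →* ℂ where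
  toFun x := ∏ k, Complex.exp (Complex.I * (θ k * ((Multiplicative.toAdd x) k : ℤ)))
  map_one' := by simp
  map_mul' x y := by
    rw [← Finset.prod_mul_distrib]
    refine Finset.prod_congr rfl fun k _ => ?_
    rw [← Complex.exp_add]
    congr 1
    simp only [toAdd_mul, Pi.add_apply, Int.cast_add]
    ring

/-- Fourier transform. -/
def ev (θ : Fin 4 → ℝ) : KK →ₐ[ℝ] ℂ := AddMonoidAlgebra.lift ℝ ℂ (Fin 4 → ℤ) (chr θ)

lemma ev_single (θ : Fin 4 → ℝ) (z : Fin 4 → ℤ) (r : ℝ) :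
    ev θ (AddMonoidAlgebra.single z r) = r * ∏ k, Complex.exp (Complex.I * (θ k * (z k : ℤ))) := by
  unfold ev
  rw [AddMonoidAlgebra.lift_single, Complex.real_smul]
  rfl

lemma ev_T (θ : Fin 4 → ℝ) (z : Fin 4 → ℤ) :
    ev θ (T z) = ∏ k, Complex.exp (Complex.I * (θ k * (z k : ℤ))) := by
  unfold T
  rw [ev_single]
  simp

lemma continuous_ev (f : KK) : Continuous fun θ => ev θ f := by
  induction f using AddMonoidAlgebra.induction_linear with
  | zero => simpa using continuous_const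
  | add f g hf hg =>
    simp only [map_add]
    exact hf.add hg
  | single z r =>
    simp only [ev_single]
    fun_prop

lemma bounded_ev (f : KK) : ∃ C : ℝ, ∀ θ, ‖ev θ f‖ ≤ C := by
  induction f using AddMonoidAlgebra.induction_linear with
  | zero => exact ⟨0, fun θ => by simp⟩
  | add f g hf hg =>
    obtain ⟨C, hC⟩ := hf
    obtain ⟨D, hD⟩ := hg
    exact ⟨C + D, fun θ => by rw [map_add]; exact (norm_add_le _ _).trans (add_le_add (hC θ) (hD θ))⟩
  | single z r =>
    refine ⟨|r|, fun θ => ?_⟩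
    rw [ev_single, norm_mul, norm_prod]
    have : ∀ k : Fin 4, ‖Complex.exp (Complex.I * (θ k * (z k : ℤ)))‖ = 1 := by
      intro k
      rw [Complex.norm_exp]
      simp
    simp [this]

/-- Lebesgue measure on `(-π, π]`. -/
def m1 : Measure ℝ := volume.restrict (Set.Ioc (-Real.pi) Real.pi)

/-- Lebesgue measure on `(-π, π]⁴`. -/
def m4 : Measure (Fin 4 → ℝ) := Measure.pi fun _ => m1

instance : IsFiniteMeasure m1 := by
  unfold m1
  infer_instance

instance : IsFiniteMeasure m4 := by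
  unfold m4
  infer_instance

lemma integrable_m4 {f : (Fin 4 → ℝ) → ℂ} (hf : Continuous f) {C : ℝ} (hC : ∀ θ, ‖f θ‖ ≤ C) :
    Integrable f m4 :=
  Integrable.of_bound hf.aestronglyMeasurable C (Filter.Eventually.of_forall hC)

lemma int_exp (n : ℤ) :
    ∫ t, Complex.exp (Complex.I * ((t : ℝ) * (n : ℤ))) ∂m1 =
      if n = 0 then ((2 * Real.pi : ℝ) : ℂ) else 0 := by
  unfold m1
  rw [← intervalIntegral.integral_of_le (by linarith [Real.pi_pos])]
  by_cases h : n = 0
  · subst h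
    simp
    ring
  · rw [if_neg h]
    have hc : Complex.I * (n : ℂ) ≠ 0 := mul_ne_zero Complex.I_ne_zero (Int.cast_ne_zero.2 h)
    have h1 : ∀ t : ℝ, Complex.exp (Complex.I * ((t : ℝ) * (n : ℤ))) =
        Complex.exp (Complex.I * (n : ℂ) * (t : ℂ)) := by
      intro t
      congr 1
      ring
    simp only [h1]
    rw [integral_exp_mul_complex hc]
    have h2 : Complex.exp (Complex.I * (n : ℂ) * ((Real.pi : ℝ) : ℂ)) =
        Complex.exp (Complex.I * (n : ℂ) * ((-Real.pi : ℝ) : ℂ)) := by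
      rw [Complex.exp_eq_exp_iff_exists_int]
      refine ⟨n, ?_⟩
      push_cast
      ring
    rw [h2]
    simp

lemma int_ev_T (z : Fin 4 → ℤ) :
    ∫ θ, ev θ (T z) ∂m4 = if z = 0 then (((2 * Real.pi) ^ 4 : ℝ) : ℂ) else 0 := by
  simp only [ev_T]
  unfold m4
  rw [integral_fintype_prod_eq_prod (f := fun k t => Complex.exp (Complex.I * ((t : ℝ) * (z k : ℤ))))]
  simp only [int_exp]
  by_cases h : z = 0
  · subst h
    simp
  · rw [if_neg h]
    obtain ⟨k, hk⟩ : ∃ k, z k ≠ 0 := by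
      by_contra hc
      push Not at hc
      exact h (funext hc)
    exact Finset.prod_eq_zero (Finset.mem_univ k) (if_neg hk)

lemma ip_zero_left' (g : KK) : ip 0 g = 0 := by simp [ip]

lemma ip_add_left' (f f' g : KK) : ip (f + f') g = ip f g + ip f' g := by
  unfold ip
  rw [AddMonoidAlgebra.coeff_add, Finsupp.sum_add_index']
  · intro x; simp
  · intro x r s; ring

lemma ip_single_left (z : Fin 4 → ℤ) (r : ℝ) (g : KK) :
    ip (AddMonoidAlgebra.single z r) g = r * g.coeff z := by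
  unfold ip
  rw [AddMonoidAlgebra.coeff_single, Finsupp.sum_single_index]
  simp

lemma conj_ev_single (θ : Fin 4 → ℝ) (z : Fin 4 → ℤ) (r : ℝ) :
    conj (ev θ (AddMonoidAlgebra.single z r)) = ev θ (AddMonoidAlgebra.single (-z) r) := by
  rw [ev_single, ev_single, map_mul, Complex.conj_ofReal, map_prod]
  congr 1
  refine Finset.prod_congr rfl fun k _ => ?_
  rw [← Complex.exp_conj]
  congr 1
  simp

lemma single_mul_T (z w : Fin 4 → ℤ) (r s : ℝ) :
    (AddMonoidAlgebra.single z r : KK) * AddMonoidAlgebra.single w s =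
      AddMonoidAlgebra.single (z + w) (r * s) := by
  rw [AddMonoidAlgebra.single_mul_single]

/-- **Parseval.** -/
lemma parseval (f g : KK) :
    ∫ θ, conj (ev θ f) * ev θ g ∂m4 = (((2 * Real.pi) ^ 4 * ip f g : ℝ) : ℂ) := by
  have hint : ∀ f g : KK, Integrable (fun θ => conj (ev θ f) * ev θ g) m4 := by
    intro f g
    obtain ⟨C, hC⟩ := bounded_ev f
    obtain ⟨D, hD⟩ := bounded_ev g
    refine integrable_m4 ((Complex.continuous_conj.comp (continuous_ev f)).mul (continuous_ev g))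
      (C := C * D) fun θ => ?_
    rw [norm_mul, RCLike.norm_conj]
    exact mul_le_mul (hC θ) (hD θ) (norm_nonneg _) ((norm_nonneg _).trans (hC θ))
  induction f using AddMonoidAlgebra.induction_linear with
  | zero => simp [ip_zero_left']
  | add f f' hf hf' =>
    simp only [map_add, add_mul]
    rw [integral_add (hint f g) (hint f' g), hf, hf', ip_add_left']
    push_cast
    ring
  | single z r =>
    rw [ip_single_left]
    induction g using AddMonoidAlgebra.induction_linear with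
    | zero => simp
    | add g g' hg hg' =>
      simp only [map_add, mul_add]
      rw [integral_add (hint _ g) (hint _ g'), hg, hg', AddMonoidAlgebra.coeff_add,
        Finsupp.add_apply]
      push_cast
      ring
    | single w s =>
      have h1 : ∀ θ, conj (ev θ (AddMonoidAlgebra.single z r)) * ev θ (AddMonoidAlgebra.single w s)
          = ((r * s : ℝ) : ℂ) * ev θ (T (w - z)) := by
        intro θ
        rw [conj_ev_single, ← map_mul, single_mul_T, ev_single, ev_T]
        congr 1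
        refine Finset.prod_congr rfl fun k _ => ?_
        congr 3
        simp only [Pi.add_apply, Pi.neg_apply, Pi.sub_apply]
        push_cast
        ring
      simp only [h1]
      rw [integral_const_mul, int_ev_T, AddMonoidAlgebra.coeff_single]
      by_cases h : w = z
      · subst h
        simp
        ring
      · rw [if_neg (sub_ne_zero.2 h), Finsupp.single_eq_of_ne (Ne.symm h)]
        simp

/-- The symbol of the walk. -/
lemma ev_walk (θ : Fin 4 → ℝ) :
    ev θ walk = ((1 - (1 / 4) * ∑ i, Real.sin (θ i / 2) ^ 2 : ℝ) : ℂ) := by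
  have h1 : ∀ i : Fin 4, ev θ (T (ez i)) = Complex.exp (Complex.I * θ i) := by
    intro i
    rw [ev_T, Finset.prod_eq_single i]
    · simp [ez]
    · intro k _ hk
      simp [ez, hk]
    · simp
  have h2 : ∀ i : Fin 4, ev θ (T (-ez i)) = Complex.exp (-(Complex.I * θ i)) := by
    intro i
    rw [ev_T, Finset.prod_eq_single i]
    · simp [ez]
    · intro k _ hk
      simp [ez, hk]
    · simp
  have h3 : ∀ i : Fin 4, ev θ (ds i * dd i) = ((4 * Real.sin (θ i / 2) ^ 2 : ℝ) : ℂ) := by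
    intro i
    unfold ds dd
    rw [map_mul, map_sub, map_sub, map_one, h1, h2]
    have h4 : Complex.exp (Complex.I * θ i) * Complex.exp (-(Complex.I * θ i)) = 1 := by
      rw [← Complex.exp_add]; simp
    have h5 : Complex.exp (Complex.I * θ i) + Complex.exp (-(Complex.I * θ i)) =
        2 * Complex.cos (θ i) := by
      rw [Complex.cos]
      ring_nf
    have h6 : Real.sin (θ i / 2) ^ 2 = 1 / 2 - Real.cos (θ i) / 2 := by
      have := Real.sin_sq_eq_half_sub (θ i / 2)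
      rw [this]
      congr 3
      ring
    rw [h6]
    push_cast
    linear_combination h4 - h5
  unfold walk lap
  rw [map_sub, map_one, map_smul, map_sum, Finset.sum_congr rfl fun i _ => h3 i]
  rw [Complex.real_smul]
  push_cast
  rw [← Finset.mul_sum]
  ring

lemma symbol_nonneg (θ : Fin 4 → ℝ) : 0 ≤ 1 - (1 / 4) * ∑ i, Real.sin (θ i / 2) ^ 2 := by
  have : ∑ i : Fin 4, Real.sin (θ i / 2) ^ 2 ≤ ∑ _i : Fin 4, (1 : ℝ) :=
    Finset.sum_le_sum fun i _ => Real.sin_sq_le_one _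
  simp at this
  linarith

/-- The symbol `1 - (1/4) ∑ sin²(θ_i/2)` of the walk. -/
def sym (θ : Fin 4 → ℝ) : ℝ := 1 - (1 / 4) * ∑ i, Real.sin (θ i / 2) ^ 2

lemma continuous_sym : Continuous sym := by
  unfold sym
  fun_prop

lemma sym_le_one (θ : Fin 4 → ℝ) : sym θ ≤ 1 := by
  have : 0 ≤ ∑ i : Fin 4, Real.sin (θ i / 2) ^ 2 := Finset.sum_nonneg fun i _ => by positivity
  unfold sym
  linarith

lemma ip_walk (f : KK) (k : ℕ) :
    ip f (walk ^ k * f) = ((2 * Real.pi) ^ 4)⁻¹ * ∫ θ, sym θ ^ k * ‖ev θ f‖ ^ 2 ∂m4 := by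
  have h := parseval f (walk ^ k * f)
  have h1 : ∀ θ, conj (ev θ f) * ev θ (walk ^ k * f) =
      ((sym θ ^ k * ‖ev θ f‖ ^ 2 : ℝ) : ℂ) := by
    intro θ
    rw [map_mul, map_pow, ev_walk]
    unfold sym
    push_cast
    rw [← Complex.conj_mul' (ev θ f)]
    ring
  simp only [h1] at h
  rw [integral_complex_ofReal] at h
  have h2 := Complex.ofReal_injective h
  rw [h2, ← mul_assoc, inv_mul_cancel₀ (by positivity), one_mul]

/-- The walk is positive semidefinite. -/
theorem walk_nonneg (f : KK) (k : ℕ) : 0 ≤ ip f (walk ^ k * f) := by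
  rw [ip_walk]
  exact mul_nonneg (by positivity)
    (integral_nonneg fun θ => mul_nonneg (pow_nonneg (symbol_nonneg θ) _) (by positivity))

/-- The Dirichlet kernel. -/
def dk (R : ℕ) (t : ℝ) : ℂ := ∑ s ∈ Finset.range R, Complex.exp (Complex.I * (t * (s : ℤ)))

lemma continuous_dk (R : ℕ) : Continuous (dk R) := by
  unfold dk
  fun_prop

lemma norm_dk_le (R : ℕ) (t : ℝ) : ‖dk R t‖ ≤ R := by
  unfold dk
  refine (norm_sum_le _ _).trans ?_
  have : ∀ s ∈ Finset.range R, ‖Complex.exp (Complex.I * (t * ((s : ℤ) : ℂ)))‖ ≤ 1 := by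
    intro s _
    rw [Complex.norm_exp]
    simp
  refine (Finset.sum_le_sum this).trans ?_
  simp

lemma ev_line (i : Fin 4) (R : ℕ) (θ : Fin 4 → ℝ) :
    ev θ (∑ s ∈ Finset.range R, T ((s : ℤ) • ez i)) = dk R (θ i) := by
  unfold dk
  rw [map_sum]
  refine Finset.sum_congr rfl fun s _ => ?_
  rw [ev_T, Finset.prod_eq_single i]
  · simp [ez]
  · intro k _ hk
    simp [ez, hk]
  · simp

lemma int_dk (R : ℕ) : ∫ t, ‖dk R t‖ ^ 2 ∂m1 = 2 * Real.pi * R := by
  have h1 : ∀ t, ((‖dk R t‖ ^ 2 : ℝ) : ℂ) = ∑ s ∈ Finset.range R, ∑ s' ∈ Finset.range R,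
      Complex.exp (Complex.I * ((t : ℝ) * (((s' : ℤ) - (s : ℤ) : ℤ) : ℂ))) := by
    intro t
    push_cast
    rw [← Complex.conj_mul']
    unfold dk
    rw [map_sum, Finset.sum_mul_sum]
    refine Finset.sum_congr rfl fun s _ => Finset.sum_congr rfl fun s' _ => ?_
    rw [← Complex.exp_conj, ← Complex.exp_add]
    congr 1
    simp
    ring
  have h2 : ((∫ t, ‖dk R t‖ ^ 2 ∂m1 : ℝ) : ℂ) = ((2 * Real.pi * R : ℝ) : ℂ) := by
    rw [← integral_complex_ofReal]
    simp only [h1]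
    rw [integral_finsetSum]
    · have h3 : ∀ s ∈ Finset.range R, ∫ t, ∑ s' ∈ Finset.range R,
          Complex.exp (Complex.I * ((t : ℝ) * (((s' : ℤ) - (s : ℤ) : ℤ) : ℂ))) ∂m1 =
          ((2 * Real.pi : ℝ) : ℂ) := by
        intro s hs
        rw [integral_finsetSum]
        · rw [Finset.sum_eq_single s]
          · rw [int_exp, if_pos (by simp)]
          · intro s' _ hss
            rw [int_exp, if_neg]
            intro h
            apply hss
            have : (s' : ℤ) = s := by linarith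
            exact_mod_cast this
          · intro h
            exact absurd hs h
        · intro s' _
          refine Integrable.of_bound (C := 1) (by fun_prop) (Filter.Eventually.of_forall fun t => ?_)
          rw [Complex.norm_exp]
          simp
      rw [Finset.sum_congr rfl h3, Finset.sum_const, Finset.card_range]
      push_cast
      ring
    · intro s _
      refine integrable_finsetSum _ fun s' _ => ?_
      refine Integrable.of_bound (C := 1) (by fun_prop) (Filter.Eventually.of_forall fun t => ?_)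
      rw [Complex.norm_exp]
      simp
  exact_mod_cast h2

/-- The one-dimensional factor. -/
def gk (k : ℕ) (t : ℝ) : ℝ := Real.exp (-((k : ℝ) / 4 * Real.sin (t / 2) ^ 2))

lemma continuous_gk (k : ℕ) : Continuous (gk k) := by
  unfold gk
  fun_prop

lemma gk_le_one (k : ℕ) (t : ℝ) : gk k t ≤ 1 := by
  unfold gk
  rw [Real.exp_le_one_iff]
  have : 0 ≤ (k : ℝ) / 4 * Real.sin (t / 2) ^ 2 := by positivity
  linarith

lemma gk_nonneg (k : ℕ) (t : ℝ) : 0 ≤ gk k t := (Real.exp_pos _).le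

lemma int_gk_nonneg (k : ℕ) : 0 ≤ ∫ t, gk k t ∂m1 := integral_nonneg fun t => gk_nonneg k t

lemma sin_half_sq (t : ℝ) (ht : |t| ≤ Real.pi) : t ^ 2 / Real.pi ^ 2 ≤ Real.sin (t / 2) ^ 2 := by
  have hp := Real.pi_pos
  have h1 : 2 / Real.pi * |t / 2| ≤ |Real.sin (t / 2)| :=
    Real.mul_abs_le_abs_sin (by rw [abs_div, abs_two]; linarith)
  have h2 : |t| / Real.pi ≤ |Real.sin (t / 2)| := by
    refine le_trans (le_of_eq ?_) h1
    rw [abs_div, abs_two]
    field_simp
  have h3 : (|t| / Real.pi) ^ 2 ≤ |Real.sin (t / 2)| ^ 2 := by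
    gcongr
  rw [sq_abs, div_pow, sq_abs] at h3
  exact h3

lemma int_gk (k : ℕ) : ∫ t, gk k t ∂m1 ≤
    2 * Real.pi * Real.sqrt (2 * Real.pi) / Real.sqrt ((k : ℝ) + 1) := by
  have hp := Real.pi_pos
  have hs : (0 : ℝ) < Real.sqrt ((k : ℝ) + 1) := Real.sqrt_pos.2 (by positivity)
  rcases Nat.eq_zero_or_pos k with hk | hk
  · subst hk
    have h1 : ∫ t, gk 0 t ∂m1 = 2 * Real.pi := by
      simp only [gk, m1, Nat.cast_zero, zero_div, zero_mul, neg_zero, Real.exp_zero]
      rw [integral_const]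
      simp
      rw [← two_mul, max_eq_left (by positivity)]
    rw [h1, Nat.cast_zero, zero_add, Real.sqrt_one, div_one]
    have h2 : 1 ≤ Real.sqrt (2 * Real.pi) := by
      rw [Real.one_le_sqrt]
      have := Real.pi_gt_three
      linarith
    nlinarith
  · have hk' : (0 : ℝ) < k := by exact_mod_cast hk
    have hb : 0 < (k : ℝ) / (4 * Real.pi ^ 2) := by positivity
    have h1 : ∫ t, gk k t ∂m1 ≤ ∫ t, Real.exp (-((k : ℝ) / (4 * Real.pi ^ 2)) * t ^ 2) := by
      unfold m1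
      have h2 : ∫ t in Set.Ioc (-Real.pi) Real.pi, gk k t ≤
          ∫ t in Set.Ioc (-Real.pi) Real.pi,
            Real.exp (-((k : ℝ) / (4 * Real.pi ^ 2)) * t ^ 2) := by
        refine setIntegral_mono_on ?_ (integrable_exp_neg_mul_sq hb).integrableOn
          measurableSet_Ioc ?_
        · exact (continuous_gk k).integrableOn_Icc.mono_set Set.Ioc_subset_Icc_self
        · intro t ht
          unfold gk
          rw [Real.exp_le_exp]
          have h3 := sin_half_sq t (abs_le.2 ⟨ht.1.le, ht.2⟩)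
          have h4 : (k : ℝ) / (4 * Real.pi ^ 2) * t ^ 2 = (k : ℝ) / 4 * (t ^ 2 / Real.pi ^ 2) := by
            field_simp
          have h5 : (k : ℝ) / 4 * (t ^ 2 / Real.pi ^ 2) ≤ (k : ℝ) / 4 * Real.sin (t / 2) ^ 2 :=
            mul_le_mul_of_nonneg_left h3 (by positivity)
          linarith
      refine h2.trans ?_
      exact setIntegral_le_integral (integrable_exp_neg_mul_sq hb)
        (Filter.Eventually.of_forall fun t => (Real.exp_pos _).le)
    refine h1.trans ?_
    rw [integral_gaussian]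
    have h6 : Real.pi / ((k : ℝ) / (4 * Real.pi ^ 2)) ≤
        (2 * Real.pi * Real.sqrt (2 * Real.pi) / Real.sqrt ((k : ℝ) + 1)) ^ 2 := by
      rw [div_pow, mul_pow, Real.sq_sqrt (by positivity), Real.sq_sqrt (by positivity)]
      rw [div_div_eq_mul_div, div_le_div_iff₀ hk' (by positivity)]
      have hk1 : (1 : ℝ) ≤ k := by exact_mod_cast hk
      have : Real.pi * (4 * Real.pi ^ 2) * ((k : ℝ) + 1) ≤
          Real.pi * (4 * Real.pi ^ 2) * (2 * k) :=
        mul_le_mul_of_nonneg_left (by linarith) (by positivity)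
      refine this.trans (le_of_eq ?_)
      ring
    calc Real.sqrt (Real.pi / ((k : ℝ) / (4 * Real.pi ^ 2)))
        ≤ Real.sqrt ((2 * Real.pi * Real.sqrt (2 * Real.pi) / Real.sqrt ((k : ℝ) + 1)) ^ 2) :=
          Real.sqrt_le_sqrt h6
      _ = _ := Real.sqrt_sq (by positivity)

lemma sym_pow_le (θ : Fin 4 → ℝ) (k : ℕ) : sym θ ^ k ≤ ∏ i, gk k (θ i) := by
  have h1 : sym θ ≤ Real.exp (-((1 / 4) * ∑ i, Real.sin (θ i / 2) ^ 2)) := by
    have := Real.add_one_le_exp (-((1 / 4) * ∑ i, Real.sin (θ i / 2) ^ 2))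
    unfold sym
    linarith
  have h2 : sym θ ^ k ≤ Real.exp (-((1 / 4) * ∑ i, Real.sin (θ i / 2) ^ 2)) ^ k :=
    pow_le_pow_left₀ (symbol_nonneg θ) h1 k
  refine h2.trans (le_of_eq ?_)
  unfold gk
  rw [← Real.exp_nat_mul, ← Real.exp_sum]
  congr 1
  rw [Finset.sum_neg_distrib, ← Finset.mul_sum]
  ring

/-- The integral over the torus of `|D_R(θ_i)|² ∏_{l ≠ i} g_k(θ_l)`. -/
lemma int_line (i : Fin 4) (R k : ℕ) :
    ∫ θ, sym θ ^ k * ‖dk R (θ i)‖ ^ 2 ∂m4 ≤ 2 * Real.pi * R * (∫ t, gk k t ∂m1) ^ 3 := by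
  set F : Fin 4 → ℝ → ℝ := fun l t => if l = i then ‖dk R t‖ ^ 2 else gk k t with hF
  have hFc : ∀ l, Continuous (F l) := by
    intro l
    simp only [hF]
    split_ifs
    · exact (continuous_dk R).norm.pow 2
    · exact continuous_gk k
  have hFb : ∀ l t, ‖F l t‖ ≤ (R : ℝ) ^ 2 + 1 := by
    intro l t
    simp only [hF]
    split_ifs
    · rw [Real.norm_of_nonneg (by positivity)]
      have := norm_dk_le R t
      nlinarith [norm_nonneg (dk R t)]
    · rw [Real.norm_of_nonneg (gk_nonneg k t)]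
      have := gk_le_one k t
      nlinarith [sq_nonneg (R : ℝ)]
  have h1 : ∫ θ, ∏ l, F l (θ l) ∂m4 = 2 * Real.pi * R * (∫ t, gk k t ∂m1) ^ 3 := by
    unfold m4
    rw [integral_fintype_prod_eq_prod]
    rw [← Finset.mul_prod_erase _ _ (Finset.mem_univ i)]
    have h2 : ∫ t, F i t ∂m1 = 2 * Real.pi * R := by
      simp only [hF, if_true]
      exact int_dk R
    have h3 : ∏ l ∈ Finset.univ.erase i, ∫ t, F l t ∂m1 = (∫ t, gk k t ∂m1) ^ 3 := by
      rw [Finset.prod_congr rfl (g := fun _ => ∫ t, gk k t ∂m1)]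
      · rw [Finset.prod_const, Finset.card_erase_of_mem (Finset.mem_univ i)]
        simp
      · intro l hl
        simp only [hF, if_neg (Finset.ne_of_mem_erase hl)]
    rw [h2, h3]
  rw [← h1]
  refine integral_mono_of_nonneg (Filter.Eventually.of_forall fun θ =>
    mul_nonneg (pow_nonneg (symbol_nonneg θ) _) (by positivity)) ?_
    (Filter.Eventually.of_forall fun θ => ?_)
  · refine Integrable.of_bound (C := ((R : ℝ) ^ 2 + 1) ^ 4) ?_
      (Filter.Eventually.of_forall fun θ => ?_)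
    · exact (continuous_finsetProd _ fun l _ =>
        (hFc l).comp (continuous_apply l)).aestronglyMeasurable
    · rw [norm_prod]
      calc ∏ l, ‖F l (θ l)‖ ≤ ∏ _l : Fin 4, ((R : ℝ) ^ 2 + 1) :=
            Finset.prod_le_prod (fun l _ => norm_nonneg _) fun l _ => hFb l _
        _ = ((R : ℝ) ^ 2 + 1) ^ 4 := by simp
  · simp only
    have h2 := sym_pow_le θ k
    have h3 : ∏ l, F l (θ l) = ‖dk R (θ i)‖ ^ 2 * ∏ l ∈ Finset.univ.erase i, gk k (θ l) := by
      rw [← Finset.mul_prod_erase _ _ (Finset.mem_univ i)]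
      congr 1
      · simp [hF]
      · refine Finset.prod_congr rfl fun l hl => ?_
        simp only [hF, if_neg (Finset.ne_of_mem_erase hl)]
    have h4 : ∏ l, gk k (θ l) ≤ ∏ l ∈ Finset.univ.erase i, gk k (θ l) := by
      rw [← Finset.mul_prod_erase _ _ (Finset.mem_univ i)]
      have : 0 ≤ ∏ l ∈ Finset.univ.erase i, gk k (θ l) :=
        Finset.prod_nonneg fun l _ => gk_nonneg k _
      nlinarith [gk_le_one k (θ i)]
    rw [h3, mul_comm]
    exact mul_le_mul_of_nonneg_left (h2.trans h4) (by positivity)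

/-- If `|f̂(θ)|² ≤ 4 |D_R(θ_i)|²` then `⟨f, walk^k f⟩ ≤ 4 (2π)^{3/2} R (k+1)^{-3/2}`. -/
lemma green_of_le (f : KK) (i : Fin 4) (R k : ℕ) (hf : ∀ θ, ‖ev θ f‖ ^ 2 ≤ 4 * ‖dk R (θ i)‖ ^ 2) :
    ip f (walk ^ k * f) ≤ 4 * Real.sqrt (2 * Real.pi) ^ 3 * R / Real.sqrt ((k : ℝ) + 1) ^ 3 := by
  have hp := Real.pi_pos
  rw [ip_walk]
  have h1 : ∫ θ, sym θ ^ k * ‖ev θ f‖ ^ 2 ∂m4 ≤
      4 * (2 * Real.pi * R * (∫ t, gk k t ∂m1) ^ 3) := by
    have h2 : ∫ θ, sym θ ^ k * ‖ev θ f‖ ^ 2 ∂m4 ≤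
        ∫ θ, 4 * (sym θ ^ k * ‖dk R (θ i)‖ ^ 2) ∂m4 := by
      refine integral_mono_of_nonneg (Filter.Eventually.of_forall fun θ =>
        mul_nonneg (pow_nonneg (symbol_nonneg θ) _) (by positivity)) ?_
        (Filter.Eventually.of_forall fun θ => ?_)
      · refine Integrable.of_bound (C := 4 * (R : ℝ) ^ 2) ?_ (Filter.Eventually.of_forall fun θ => ?_)
        · exact (continuous_const.mul ((continuous_sym.pow k).mul
            (((continuous_dk R).comp (continuous_apply i)).norm.pow 2))).aestronglyMeasurable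
        · have h3 : 0 ≤ sym θ ^ k := pow_nonneg (symbol_nonneg θ) k
          have h4 : sym θ ^ k ≤ 1 := pow_le_one₀ (symbol_nonneg θ) (sym_le_one θ)
          rw [Real.norm_of_nonneg (by positivity)]
          have h5 : ‖dk R (θ i)‖ ^ 2 ≤ (R : ℝ) ^ 2 :=
            pow_le_pow_left₀ (norm_nonneg _) (norm_dk_le R _) 2
          have h6 : sym θ ^ k * ‖dk R (θ i)‖ ^ 2 ≤ 1 * (R : ℝ) ^ 2 :=
            mul_le_mul h4 h5 (by positivity) zero_le_one
          linarith
      · simp only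
        have h3 : 0 ≤ sym θ ^ k := pow_nonneg (symbol_nonneg θ) k
        calc sym θ ^ k * ‖ev θ f‖ ^ 2 ≤ sym θ ^ k * (4 * ‖dk R (θ i)‖ ^ 2) :=
              mul_le_mul_of_nonneg_left (hf θ) h3
          _ = 4 * (sym θ ^ k * ‖dk R (θ i)‖ ^ 2) := by ring
    refine h2.trans ?_
    rw [integral_const_mul]
    exact mul_le_mul_of_nonneg_left (int_line i R k) (by norm_num)
  have h2 : (∫ t, gk k t ∂m1) ^ 3 ≤
      (2 * Real.pi * Real.sqrt (2 * Real.pi) / Real.sqrt ((k : ℝ) + 1)) ^ 3 :=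
    pow_le_pow_left₀ (int_gk_nonneg k) (int_gk k) 3
  calc ((2 * Real.pi) ^ 4)⁻¹ * ∫ θ, sym θ ^ k * ‖ev θ f‖ ^ 2 ∂m4
      ≤ ((2 * Real.pi) ^ 4)⁻¹ * (4 * (2 * Real.pi * R *
        (2 * Real.pi * Real.sqrt (2 * Real.pi) / Real.sqrt ((k : ℝ) + 1)) ^ 3)) := by
        refine mul_le_mul_of_nonneg_left (h1.trans ?_) (by positivity)
        gcongr
    _ = 4 * Real.sqrt (2 * Real.pi) ^ 3 * R / Real.sqrt ((k : ℝ) + 1) ^ 3 := by
        have hs : (0 : ℝ) < Real.sqrt ((k : ℝ) + 1) := Real.sqrt_pos.2 (by positivity)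
        field_simp

/-- **The Green function of a square loop.** -/
theorem loop_green : ∃ C : ℝ, 0 ≤ C ∧ ∀ R k : ℕ,
    ∑ i, ip (bd (rectQ R R) i) (walk ^ k * bd (rectQ R R) i) ≤
      C * R * ((k : ℝ) + 1) ^ (-(3 / 2) : ℝ) := by
  refine ⟨8 * Real.sqrt (2 * Real.pi) ^ 3, by positivity, fun R k => ?_⟩
  have hgeo : ∀ i : Fin 4, ds i * ∑ s ∈ Finset.range R, T ((s : ℤ) • ez i) =
      T ((R : ℤ) • ez i) - 1 := by
    intro i
    have h1 : ∀ n : ℕ, T ((n : ℤ) • ez i) = T (ez i) ^ n := by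
      intro n
      induction n with
      | zero => simp [T, AddMonoidAlgebra.one_def]
      | succ n ih =>
        rw [pow_succ, ← ih]
        unfold T
        rw [AddMonoidAlgebra.single_mul_single, mul_one]
        congr 1
        push_cast
        rw [add_smul, one_smul]
    rw [Finset.sum_congr rfl fun s _ => h1 s, h1 R]
    unfold ds
    rw [mul_comm]
    exact geom_sum_mul (T (ez i)) R
  have hT : ∀ (z : Fin 4 → ℤ) θ, ‖ev θ (T z)‖ = 1 := by
    intro z θ
    rw [ev_T, norm_prod]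
    refine Finset.prod_eq_one fun k _ => ?_
    rw [Complex.norm_exp]
    simp
  have hT1 : ∀ (z : Fin 4 → ℤ) θ, ‖ev θ (T z - 1)‖ ≤ 2 := by
    intro z θ
    rw [map_sub, map_one]
    refine (norm_sub_le _ _).trans ?_
    rw [hT, norm_one]
    norm_num
  have hb0 : ∀ θ, ‖ev θ (bd (rectQ R R) 0)‖ ^ 2 ≤ 4 * ‖dk R (θ 0)‖ ^ 2 := by
    intro θ
    have h1 : bd (rectQ R R) 0 =
        -((T ((R : ℤ) • ez 1) - 1) * ∑ s ∈ Finset.range R, T ((s : ℤ) • ez 0)) := by
      unfold bd rectQ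
      rw [if_pos rfl, ← hgeo 1]
      ring
    rw [h1, map_neg, norm_neg, map_mul, ev_line, norm_mul, mul_pow]
    have := hT1 ((R : ℤ) • ez 1) θ
    have h2 : ‖ev θ (T ((R : ℤ) • ez 1) - 1)‖ ^ 2 ≤ 4 := by
      nlinarith [norm_nonneg (ev θ (T ((R : ℤ) • ez 1) - 1))]
    exact mul_le_mul_of_nonneg_right h2 (by positivity)
  have hb1 : ∀ θ, ‖ev θ (bd (rectQ R R) 1)‖ ^ 2 ≤ 4 * ‖dk R (θ 1)‖ ^ 2 := by
    intro θ
    have h1 : bd (rectQ R R) 1 =
        (T ((R : ℤ) • ez 0) - 1) * ∑ s ∈ Finset.range R, T ((s : ℤ) • ez 1) := by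
      unfold bd rectQ
      rw [if_neg (by decide), if_pos rfl, ← hgeo 0]
      ring
    rw [h1, map_mul, ev_line, norm_mul, mul_pow]
    have := hT1 ((R : ℤ) • ez 0) θ
    have h2 : ‖ev θ (T ((R : ℤ) • ez 0) - 1)‖ ^ 2 ≤ 4 := by
      nlinarith [norm_nonneg (ev θ (T ((R : ℤ) • ez 0) - 1))]
    exact mul_le_mul_of_nonneg_right h2 (by positivity)
  have hb2 : bd (rectQ R R) 2 = 0 := by
    unfold bd
    rw [if_neg (by decide), if_neg (by decide)]
  have hb3 : bd (rectQ R R) 3 = 0 := by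
    unfold bd
    rw [if_neg (by decide), if_neg (by decide)]
  have hpow : ((k : ℝ) + 1) ^ (-(3 / 2) : ℝ) = 1 / Real.sqrt ((k : ℝ) + 1) ^ 3 := by
    rw [Real.rpow_neg (by positivity), one_div, Real.sqrt_eq_rpow, ← Real.rpow_natCast,
      ← Real.rpow_mul (by positivity)]
    norm_num
  rw [Fin.sum_univ_four, hb2, hb3]
  have h0 := green_of_le _ 0 R k hb0
  have h1 := green_of_le _ 1 R k hb1
  rw [hpow]
  have e0 : ip (0 : KK) (walk ^ k * 0) = 0 := ip_zero_left' _
  rw [e0]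
  have e : 8 * Real.sqrt (2 * Real.pi) ^ 3 * R * (1 / Real.sqrt ((k : ℝ) + 1) ^ 3) =
      4 * Real.sqrt (2 * Real.pi) ^ 3 * R / Real.sqrt ((k : ℝ) + 1) ^ 3 +
      4 * Real.sqrt (2 * Real.pi) ^ 3 * R / Real.sqrt ((k : ℝ) + 1) ^ 3 := by ring
  rw [e]
  linarith

/-- Indicator of a straight line of `R` edges. -/
def lineQ (R : ℕ) : KK := ∑ s ∈ Finset.range R, T ((s : ℤ) • ez 0)

/-- The Green function of a line. -/
theorem line_green : ∃ C : ℝ, 0 ≤ C ∧ ∀ R k : ℕ,
    ip (lineQ R) (walk ^ k * lineQ R) ≤ C * R * ((k : ℝ) + 1) ^ (-(3 / 2) : ℝ) := by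
  refine ⟨4 * Real.sqrt (2 * Real.pi) ^ 3, by positivity, fun R k => ?_⟩
  have h0 := green_of_le (lineQ R) 0 R k (fun θ => by
    unfold lineQ
    rw [ev_line]
    nlinarith [sq_nonneg ‖dk R (θ 0)‖])
  have hpow : ((k : ℝ) + 1) ^ (-(3 / 2) : ℝ) = 1 / Real.sqrt ((k : ℝ) + 1) ^ 3 := by
    rw [Real.rpow_neg (by positivity), one_div, Real.sqrt_eq_rpow, ← Real.rpow_natCast,
      ← Real.rpow_mul (by positivity)]
    norm_num
  rw [hpow]
  refine h0.trans (le_of_eq ?_)
  ring

end Pool.Agent.Helper82.YM
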